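import Pool.Agent.V11256.KS.Lim

set_option autoImplicit false
set_option linter.unusedSectionVars false
set_option linter.unusedVariables false

open Finset MeasureTheory Filter Topology
open scoped ENNReal

namespace Pool.Agent.V11256.KS

noncomputable section

variable {n : ℕ}

/-- Gibbs' inequality. -/
lemma gibbs_fin {ι : Type*} (s : Finset ι) (p q : ι → ℝ) (hp : ∀ i ∈ s, 0 ≤ p i)
    (hq : ∀ i ∈ s, 0 ≤ q i) (hpq : ∀ i ∈ s, q i = 0 → p i = 0)
    (hsum : ∑ i ∈ s, q i ≤ ∑ i ∈ s, p i) :
    ∑ i ∈ s, Real.negMulLog (p i) ≤ -∑ i ∈ s, p i * Real.log (q i) := by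
  have h1 : ∀ i ∈ s, Real.negMulLog (p i) + p i * Real.log (q i) ≤ q i - p i := by
    intro i hi
    have := key1 (a := p i) (p := q i) (m := 1) (hp i hi) one_pos (hq i hi) (hpq i hi)
    rw [Real.log_one, add_zero, mul_one] at this
    unfold Real.negMulLog
    linarith
  have h2 := Finset.sum_le_sum h1
  rw [Finset.sum_add_distrib, Finset.sum_sub_distrib] at h2
  linarith

lemma measurable_starX (f : Cfg n → Bool) (hf : Measurable f) : Measurable (starX f) := by
  unfold starX
  exact hf.prodMk (measurable_pi_lambda _ (fun i => hf.comp (measurable_shift _)))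

lemma sum_lawX {α : Type} [Fintype α] [DecidableEq α] [MeasurableSpace α]
    [MeasurableSingletonClass α] (Ψ : Cfg n → α) (hΨ : Measurable Ψ) (s : Finset α) :
    ∑ a ∈ s, lawX Ψ a = (mu n).real (Ψ ⁻¹' (s : Set α)) := by
  unfold lawX
  exact sum_measureReal_preimage_singleton s (fun y _ => hΨ (measurableSet_singleton y))

/-- Upper bound for the entropy of the star of a kernel. -/
theorem kernel_upper (f : Cfg n → Bool) (hf : Measurable f)
    (h : ∀ᵐ x ∂(mu n), f x = true ↔ ∀ i, f (shift (FreeGroup.of i) x) = false) :
    HX (starX f) ≤ n * HX f := by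
  classical
  have hSm := measurable_starX f hf
  let r : Bool → ℝ := fun c => lawX f c
  have hr0 : ∀ c, 0 ≤ r c := fun c => measureReal_nonneg
  have hr1 : ∑ c, r c = 1 := by
    have := sum_lawX f hf Finset.univ
    simp only [Finset.coe_univ, Set.preimage_univ] at this
    rw [this]
    exact probReal_univ
  let q : Bool × (Fin n → Bool) → ℝ := fun a =>
    if a.1 = decide (∀ i, a.2 i = false) then ∏ i, r (a.2 i) else 0
  let p : Bool × (Fin n → Bool) → ℝ := fun a => lawX (starX f) a
  have hp0 : ∀ a, 0 ≤ p a := fun a => measureReal_nonneg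
  have hq0 : ∀ a, 0 ≤ q a := by
    intro a
    simp only [q]
    split_ifs
    · exact Finset.prod_nonneg (fun i _ => hr0 _)
    · exact le_rfl
  have hshift : ∀ (i : Fin n) (c : Bool),
      (mu n).real (shift (FreeGroup.of i) ⁻¹' (f ⁻¹' {c})) = r c := by
    intro i c
    simp only [r, lawX]
    unfold Measure.real
    rw [(measurePreserving_shift (FreeGroup.of i)).measure_preimage
      (hf (measurableSet_singleton c)).nullMeasurableSet]
  have hple : ∀ (a : Bool × (Fin n → Bool)) (i : Fin n), p a ≤ r (a.2 i) := by
    intro a i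
    rw [← hshift i (a.2 i)]
    simp only [p, lawX]
    refine measureReal_mono ?_ (measure_ne_top _ _)
    intro x hx
    have hx' : starX f x = a := hx
    show f (shift (FreeGroup.of i) x) = a.2 i
    rw [← hx']
    rfl
  have hpnor : ∀ a : Bool × (Fin n → Bool), a.1 ≠ decide (∀ i, a.2 i = false) → p a = 0 := by
    intro a ha
    simp only [p, lawX]
    unfold Measure.real
    rw [ENNReal.toReal_eq_zero_iff]
    left
    rw [← compl_compl (starX f ⁻¹' {a})]
    rw [← mem_ae_iff]
    filter_upwards [h] with x hx hxa
    apply ha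
    have hx' : starX f x = a := hxa
    rw [← hx']
    show f x = decide (∀ i, f (shift (FreeGroup.of i) x) = false)
    rw [Bool.eq_iff_iff, hx, decide_eq_true_iff]
  have hpq : ∀ a, q a = 0 → p a = 0 := by
    intro a ha
    by_cases h1 : a.1 = decide (∀ i, a.2 i = false)
    · simp only [q, if_pos h1] at ha
      obtain ⟨i, _, hi⟩ := Finset.prod_eq_zero_iff.1 ha
      exact le_antisymm ((hple a i).trans_eq hi) (hp0 a)
    · exact hpnor a h1
  have hpsum : ∑ a, p a = 1 := by
    have := sum_lawX (starX f) hSm Finset.univ
    simp only [Finset.coe_univ, Set.preimage_univ] at this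
    rw [this]
    exact probReal_univ
  have hqsum : ∑ a, q a = 1 := by
    rw [Fintype.sum_prod_type, Finset.sum_comm]
    have h1 : ∀ z : Fin n → Bool, ∑ b : Bool, q (b, z) = ∏ i, r (z i) := by
      intro z
      simp only [q]
      rw [Finset.sum_eq_single_of_mem (decide (∀ i, z i = false)) (Finset.mem_univ _)
        (fun b _ hb => if_neg hb), if_pos rfl]
    simp_rw [h1]
    have h2 := Finset.prod_univ_sum (fun _ : Fin n => (Finset.univ : Finset Bool))
      (fun (_ : Fin n) c => r c)
    rw [Fintype.piFinset_univ] at h2
    rw [← h2, hr1]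
    simp
  have hG := gibbs_fin Finset.univ p q (fun a _ => hp0 a) (fun a _ => hq0 a)
    (fun a _ => hpq a) (by rw [hpsum, hqsum])
  have hlog : ∀ a, p a * Real.log (q a) = ∑ i, p a * Real.log (r (a.2 i)) := by
    intro a
    by_cases hpa : p a = 0
    · simp [hpa]
    · have hqa : q a ≠ 0 := fun h' => hpa (hpq a h')
      have h1 : a.1 = decide (∀ i, a.2 i = false) := by
        by_contra h'
        exact hqa (if_neg h')
      have h2 : q a = ∏ i, r (a.2 i) := if_pos h1
      rw [h2, Real.log_prod, Finset.mul_sum]
      intro i _ h3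
      apply hqa
      rw [h2]
      exact Finset.prod_eq_zero (Finset.mem_univ i) h3
  have hmarg : ∀ (i : Fin n) (c : Bool), ∑ a with a.2 i = c, p a = r c := by
    intro i c
    rw [← hshift i c]
    simp only [p]
    rw [sum_lawX (starX f) hSm]
    congr 1
    ext x
    simp [starX]
  have hsum2 : ∑ a, p a * Real.log (q a) = ∑ i : Fin n, ∑ c, r c * Real.log (r c) := by
    simp_rw [hlog]
    rw [Finset.sum_comm]
    apply Finset.sum_congr rfl
    intro i _
    rw [← Finset.sum_fiberwise (Finset.univ) (fun a : Bool × (Fin n → Bool) => a.2 i)]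
    apply Finset.sum_congr rfl
    intro c _
    rw [← hmarg i c, Finset.sum_mul]
    apply Finset.sum_congr rfl
    intro a ha
    rw [Finset.mem_filter] at ha
    rw [ha.2, hmarg i c]
  rw [hsum2] at hG
  have hHf : HX f = -∑ c, r c * Real.log (r c) := by
    unfold HX Real.negMulLog
    rw [← Finset.sum_neg_distrib]
    apply Finset.sum_congr rfl
    intro c _
    ring
  rw [Finset.sum_const, Finset.card_univ, Fintype.card_fin, nsmul_eq_mul] at hG
  rw [hHf]
  have : (n : ℝ) * -∑ c, r c * Real.log (r c) = -((n : ℝ) * ∑ c, r c * Real.log (r c)) := by ring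
  rw [this]
  exact hG

/-- Local functions are combinations of characters. -/
lemma expand (B : Finset (FG n)) : ∀ g : Cfg n → ℝ, Local B g →
    ∃ c : Finset (FG n) → ℝ, ∀ x, g x = ∑ U ∈ B.powerset, c U * chi U x := by
  classical
  induction B using Finset.induction_on with
  | empty =>
    intro g hg
    refine ⟨fun _ => g (fun _ => false), fun x => ?_⟩
    simp only [Finset.powerset_empty, Finset.sum_singleton]
    rw [hg x (fun _ => false) (by simp)]
    simp [chi]
  | insert i B hi ih =>
    intro g hg
    obtain ⟨c0, hc0⟩ := ih (fun x => (g (Function.update x i false) +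
      g (Function.update x i true)) / 2) (by
        intro x y hxy
        have : ∀ b, g (Function.update x i b) = g (Function.update y i b) := by
          intro b
          apply hg
          intro t ht
          by_cases hti : t = i
          · subst hti; simp
          · rw [Function.update_of_ne hti, Function.update_of_ne hti]
            exact hxy t ((Finset.mem_insert.1 ht).resolve_left hti)
        simp only [this])
    obtain ⟨c1, hc1⟩ := ih (fun x => (g (Function.update x i false) -
      g (Function.update x i true)) / 2) (by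
        intro x y hxy
        have : ∀ b, g (Function.update x i b) = g (Function.update y i b) := by
          intro b
          apply hg
          intro t ht
          by_cases hti : t = i
          · subst hti; simp
          · rw [Function.update_of_ne hti, Function.update_of_ne hti]
            exact hxy t ((Finset.mem_insert.1 ht).resolve_left hti)
        simp only [this])
    refine ⟨fun U => if i ∈ U then c1 (U.erase i) else c0 U, fun x => ?_⟩
    rw [Finset.sum_powerset_insert hi]
    have e1 : ∑ t ∈ B.powerset, (if i ∈ t then c1 (t.erase i) else c0 t) * chi t x =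
        ∑ t ∈ B.powerset, c0 t * chi t x := by
      apply Finset.sum_congr rfl
      intro t ht
      have : i ∉ t := fun h => hi (Finset.mem_powerset.1 ht h)
      rw [if_neg this]
    have e2 : ∑ t ∈ B.powerset, (if i ∈ insert i t then c1 ((insert i t).erase i)
        else c0 (insert i t)) * chi (insert i t) x =
        sgn (x i) * ∑ t ∈ B.powerset, c1 t * chi t x := by
      rw [Finset.mul_sum]
      apply Finset.sum_congr rfl
      intro t ht
      have : i ∉ t := fun h => hi (Finset.mem_powerset.1 ht h)
      rw [if_pos (Finset.mem_insert_self i t), Finset.erase_insert this]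
      unfold chi
      rw [Finset.prod_insert this]
      ring
    rw [e1, e2, ← hc0 x, ← hc1 x]
    cases hx : x i with
    | false =>
      have : Function.update x i false = x := by rw [← hx]; exact Function.update_eq_self i x
      rw [this, sgn_false]; ring
    | true =>
      have : Function.update x i true = x := by rw [← hx]; exact Function.update_eq_self i x
      rw [this, sgn_true]; ring

lemma integrable_chi (U : Finset (FG n)) : Integrable (chi U) (mu n) := by
  apply Integrable.of_bound (C := 1)
  · exact (measurable_char U).aestronglyMeasurable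
  · apply ae_of_all
    intro x
    rw [Real.norm_eq_abs, abs_chi]

lemma integral_chi (U : Finset (FG n)) (hU : U.Nonempty) : ∫ x, chi U x ∂(mu n) = 0 := by
  classical
  obtain ⟨t0, ht0⟩ := hU
  have h1 : ∀ x : Cfg n, chi U x = (fun y : U → Bool => ∏ t : U, sgn (y t)) (U.restrict x) := by
    intro x
    unfold chi
    rw [← Finset.prod_coe_sort]
    rfl
  simp_rw [h1]
  rw [integral_restrict U (fun y : U → Bool => ∏ t : U, sgn (y t))]
  have h2 := mean_flip (⟨t0, ht0⟩ : U) (fun y : U → Bool => ∏ t : U, sgn (y t))
  have h3 : (fun y : U → Bool => ∏ t : U, sgn (Function.update y ⟨t0, ht0⟩ (!y ⟨t0, ht0⟩) t)) =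
      fun y => (∏ t : U, sgn (y t)) * (-1) := by
    funext y
    rw [← Finset.mul_prod_erase Finset.univ _ (Finset.mem_univ (⟨t0, ht0⟩ : U)),
      ← Finset.mul_prod_erase Finset.univ (fun t => sgn (y t)) (Finset.mem_univ (⟨t0, ht0⟩ : U)),
      Function.update_self]
    have h4 : ∏ t ∈ Finset.univ.erase (⟨t0, ht0⟩ : U),
        sgn (Function.update y ⟨t0, ht0⟩ (!y ⟨t0, ht0⟩) t) =
        ∏ t ∈ Finset.univ.erase (⟨t0, ht0⟩ : U), sgn (y t) := by
      apply Finset.prod_congr rfl
      intro t ht
      rw [Function.update_of_ne (Finset.mem_erase.1 ht).1]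
    rw [h4]
    cases y ⟨t0, ht0⟩ <;> simp [sgn]
  rw [h3, mean_mul_const] at h2
  linarith

/-- If all nontrivial correlations vanish then `f` is independent of local functions. -/
lemma indep_local (f : Cfg n → Bool) (hf : Measurable f)
    (hcorr : ∀ U : Finset (FG n), U.Nonempty → corr f U = 0) (B : Finset (FG n))
    (g : Cfg n → ℝ) (hg : Local B g) :
    ∫ x, (if f x = true then (1 : ℝ) else 0) * g x ∂(mu n) =
      lawX f true * ∫ x, g x ∂(mu n) := by
  classical
  obtain ⟨c, hc⟩ := expand B g hg
  have h1 : ∫ x, (if f x = true then (1 : ℝ) else 0) * g x ∂(mu n) =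
      ∑ U ∈ B.powerset, c U * corr f U := by
    have : (fun x => (if f x = true then (1 : ℝ) else 0) * g x) = fun x =>
        ∑ U ∈ B.powerset, c U * ((if f x = true then (1 : ℝ) else 0) * chi U x) := by
      funext x
      rw [hc x, Finset.mul_sum]
      apply Finset.sum_congr rfl
      intro U _
      ring
    rw [this, integral_finsetSum _ (fun U _ => (integrable_ind_chi f hf U).const_mul _)]
    apply Finset.sum_congr rfl
    intro U _
    rw [integral_const_mul]
    rfl
  have h2 : ∫ x, g x ∂(mu n) = ∑ U ∈ B.powerset, c U * ∫ x, chi U x ∂(mu n) := by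
    have : g = fun x => ∑ U ∈ B.powerset, c U * chi U x := funext hc
    rw [this, integral_finsetSum _ (fun U _ => (integrable_chi U).const_mul _)]
    apply Finset.sum_congr rfl
    intro U _
    rw [integral_const_mul]
  have hcorr0 : corr f ∅ = lawX f true := by
    rw [lawX_eq_integral f hf true]
    unfold corr
    congr 1
    funext x
    simp [chi]
  have hint0 : ∫ x, chi (∅ : Finset (FG n)) x ∂(mu n) = 1 := by
    simp [chi]
  have hmem : (∅ : Finset (FG n)) ∈ B.powerset := Finset.empty_mem_powerset B
  rw [h1, h2, Finset.sum_eq_single_of_mem ∅ hmem (fun U _ hU => by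
      rw [hcorr U (Finset.nonempty_iff_ne_empty.2 hU), mul_zero]),
    Finset.sum_eq_single_of_mem ∅ hmem (fun U _ hU => by
      rw [integral_chi U (Finset.nonempty_iff_ne_empty.2 hU), mul_zero]), hcorr0, hint0]
  ring

lemma law_zero_one (f : Cfg n → Bool) (hf : Measurable f)
    (hcorr : ∀ U : Finset (FG n), U.Nonempty → corr f U = 0) :
    lawX f true = lawX f true * lawX f true := by
  have hex : ∀ k : ℕ, ∃ (B : Finset (FG n)) (φ : Cfg n → Bool), Local B φ ∧
      (mu n).real {x | φ x ≠ f x} < 1 / ((k : ℝ) + 1) :=
    fun k => exists_local_approx f hf _ (by positivity)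
  choose B φ hloc hlt using hex
  have hD : Tendsto (fun k => (mu n).real {x | φ k x ≠ f x}) atTop (𝓝 0) :=
    squeeze_zero (fun k => measureReal_nonneg) (fun k => (hlt k).le)
      tendsto_one_div_add_atTop_nhds_zero_nat
  have hφm : ∀ k, Measurable (φ k) := fun k => (hloc k).measurable
  have h1 : ∀ k, lawX (fun x => f x && φ k x) true = lawX f true * lawX (φ k) true := by
    intro k
    have hm2 : Measurable (fun x => f x && φ k x) := by
      have : (fun x => f x && φ k x) = (fun p : Bool × Bool => p.1 && p.2) ∘
        (fun x => (f x, φ k x)) := rfl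
      rw [this]
      exact (measurable_of_finite _).comp (hf.prodMk (hφm k))
    rw [lawX_eq_integral _ hm2, lawX_eq_integral (φ k) (hφm k),
      ← indep_local f hf hcorr (B k) (fun x => if φ k x = true then (1 : ℝ) else 0)]
    · congr 1
      funext x
      cases f x <;> cases φ k x <;> simp
    · intro x y hxy
      simp only
      rw [hloc k x y hxy]
  have h2 : Tendsto (fun k => lawX (φ k) true) atTop (𝓝 (lawX f true)) := by
    rw [tendsto_iff_norm_sub_tendsto_zero]
    exact squeeze_zero (fun k => norm_nonneg _) (fun k => lawX_close (φ k) f true) hD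
  have h3 : Tendsto (fun k => lawX (fun x => f x && φ k x) true) atTop (𝓝 (lawX f true)) := by
    rw [tendsto_iff_norm_sub_tendsto_zero]
    refine squeeze_zero (fun k => norm_nonneg _) (fun k => ?_) hD
    refine (lawX_close (fun x => f x && φ k x) f true).trans ?_
    refine measureReal_mono ?_ (measure_ne_top _ _)
    intro x hx
    simp only [ne_eq, Set.mem_ofPred_eq] at hx ⊢
    intro h
    apply hx
    rw [h, Bool.and_self]
  have h4 : Tendsto (fun k => lawX (fun x => f x && φ k x) true) atTop
      (𝓝 (lawX f true * lawX f true)) := by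
    simp_rw [h1]
    exact h2.const_mul _
  exact tendsto_nhds_unique h3 h4

/-- There is no measurable function satisfying the kernel equation almost everywhere. -/
theorem no_kernel_fun (hn : 0 < n) (f : Cfg n → Bool) (hf : Measurable f)
    (h : ∀ᵐ x ∂(mu n), f x = true ↔ ∀ i, f (shift (FreeGroup.of i) x) = false) : False := by
  have hcorr : ∀ U : Finset (FG n), U.Nonempty → corr f U = 0 := by
    intro U hU
    have h1 := gen_ineq f hf U hU
    have h2 := kernel_upper f hf h
    have hpos : (0 : ℝ) < 6 * U.card := by
      have : (0 : ℝ) < U.card := by exact_mod_cast hU.card_pos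
      positivity
    have h3 : (corr f U) ^ 2 / (6 * U.card) ≤ 0 := by linarith
    have h4 : (corr f U) ^ 2 ≤ 0 := by
      rw [div_le_iff₀ hpos, zero_mul] at h3
      exact h3
    exact pow_eq_zero_iff (two_ne_zero) |>.1 (le_antisymm h4 (sq_nonneg _))
  have h01 := law_zero_one f hf hcorr
  have hshiftae : ∀ (P : Cfg n → Prop), (∀ᵐ x ∂(mu n), P x) →
      ∀ i : Fin n, ∀ᵐ x ∂(mu n), P (shift (FreeGroup.of i) x) := by
    intro P hP i
    exact (measurePreserving_shift (FreeGroup.of i)).quasiMeasurePreserving.ae hP
  have hne : (mu n) ≠ 0 := IsProbabilityMeasure.ne_zero _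
  rcases eq_or_ne (lawX f true) 0 with h0 | h0
  · have hae : ∀ᵐ x ∂(mu n), f x = false := by
      rw [ae_iff]
      have : {x | ¬ f x = false} = f ⁻¹' {true} := by
        ext x; simp
      rw [this]
      unfold lawX Measure.real at h0
      rw [ENNReal.toReal_eq_zero_iff] at h0
      exact h0.resolve_right (measure_ne_top _ _)
    have hae2 : ∀ᵐ x ∂(mu n), ∀ i : Fin n, f (shift (FreeGroup.of i) x) = false :=
      ae_all_iff.2 (fun i => hshiftae _ hae i)
    have hbad : ∀ᵐ x ∂(mu n), False := by
      filter_upwards [h, hae, hae2] with x h1 h2 h3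
      rw [h1.2 h3] at h2
      exact absurd h2 (by simp)
    rw [ae_iff] at hbad
    simp at hbad
  · have h1 : lawX f true = 1 := by
      have : lawX f true * (lawX f true - 1) = 0 := by linarith
      rcases mul_eq_zero.1 this with h' | h'
      · exact absurd h' h0
      · linarith
    have hsum := sum_lawX f hf Finset.univ
    have huniv : (mu n).real (f ⁻¹' ((Finset.univ : Finset Bool) : Set Bool)) = 1 := by
      rw [Finset.coe_univ, Set.preimage_univ]
      exact probReal_univ
    rw [huniv] at hsum
    have h2 : lawX f false = 0 := by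
      rw [Fintype.sum_bool] at hsum
      linarith
    have hae : ∀ᵐ x ∂(mu n), f x = true := by
      rw [ae_iff]
      have : {x | ¬ f x = true} = f ⁻¹' {false} := by
        ext x; simp
      rw [this]
      unfold lawX Measure.real at h2
      rw [ENNReal.toReal_eq_zero_iff] at h2
      exact h2.resolve_right (measure_ne_top _ _)
    have hae2 := hshiftae _ hae ⟨0, hn⟩
    have hbad : ∀ᵐ x ∂(mu n), False := by
      filter_upwards [h, hae, hae2] with x h1 h2 h3
      have h4 := h1.1 h2 ⟨0, hn⟩
      rw [h4] at h3
      exact absurd h3 (by simp)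
    rw [ae_iff] at hbad
    simp at hbad

end

end Pool.Agent.V11256.KS
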