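import Mathlib

set_option autoImplicit false
set_option linter.unusedSectionVars false
set_option linter.unusedVariables false

open Finset

namespace Pool.Agent.V11256.KS

noncomputable section

/-- The gap of concavity of `x ↦ -x log x` at the midpoint of `a` and `b`. -/
def J (a b : ℝ) : ℝ := Real.negMulLog ((a + b) / 2) - (Real.negMulLog a + Real.negMulLog b) / 2

lemma key1 {a p m : ℝ} (ha : 0 ≤ a) (hm : 0 < m) (hp : 0 ≤ p) (hpa : p = 0 → a = 0) :
    a * (Real.log p - Real.log a + Real.log m) ≤ p * m - a := by
  rcases ha.eq_or_lt with h | h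
  · subst h
    simp only [zero_mul, sub_zero]
    positivity
  · have hp' : 0 < p := by
      rcases hp.eq_or_lt with h' | h'
      · exact absurd (hpa h'.symm) h.ne'
      · exact h'
    have h1 : Real.log p - Real.log a + Real.log m = Real.log (p * m / a) := by
      rw [Real.log_div (by positivity) h.ne', Real.log_mul hp'.ne' hm.ne']
      ring
    rw [h1]
    have h2 := Real.log_le_sub_one_of_pos (show 0 < p * m / a by positivity)
    have h3 : a * Real.log (p * m / a) ≤ a * (p * m / a - 1) :=
      mul_le_mul_of_nonneg_left h2 ha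
    have h4 : a * (p * m / a - 1) = p * m - a := by
      field_simp
    linarith

lemma J_eq (a b : ℝ) : J a b =
    (a * Real.log a + b * Real.log b) / 2 - (a + b) / 2 * Real.log ((a + b) / 2) := by
  unfold J Real.negMulLog
  ring

lemma gibbs {a b p q : ℝ} (ha : 0 ≤ a) (hb : 0 ≤ b) (hp : 0 ≤ p) (hq : 0 ≤ q) (hpq : p + q ≤ 2)
    (hpa : p = 0 → a = 0) (hqb : q = 0 → b = 0) :
    (a * Real.log p + b * Real.log q) / 2 ≤ J a b := by
  rw [J_eq]
  by_cases h : a + b = 0
  · have h1 : a = 0 := by linarith
    have h2 : b = 0 := by linarith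
    subst h1; subst h2
    simp
  · have hm : 0 < (a + b) / 2 := by
      have : 0 < a + b := lt_of_le_of_ne (by linarith) (Ne.symm h)
      linarith
    have h1 := key1 ha hm hp hpa
    have h2 := key1 hb hm hq hqb
    have h3 : (p + q) * ((a + b) / 2) ≤ 2 * ((a + b) / 2) :=
      mul_le_mul_of_nonneg_right hpq hm.le
    nlinarith

lemma J_nonneg {a b : ℝ} (ha : 0 ≤ a) (hb : 0 ≤ b) : 0 ≤ J a b := by
  have := gibbs (p := 1) (q := 1) ha hb zero_le_one zero_le_one (by norm_num)
    (by norm_num) (by norm_num)
  simpa using this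

lemma J_zero : J 0 0 = 0 := by simp [J]

lemma J_add_le {a b c d : ℝ} (ha : 0 ≤ a) (hb : 0 ≤ b) (hc : 0 ≤ c) (hd : 0 ≤ d) :
    J (a + c) (b + d) ≤ J a b + J c d := by
  by_cases h : a + c + (b + d) = 0
  · have h1 : a = 0 := by linarith
    have h2 : b = 0 := by linarith
    have h3 : c = 0 := by linarith
    have h4 : d = 0 := by linarith
    subst h1; subst h2; subst h3; subst h4
    simp [J_zero]
  · have hS : 0 < (a + c + (b + d)) / 2 := by
      have : 0 < a + c + (b + d) := lt_of_le_of_ne (by linarith) (Ne.symm h)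
      linarith
    set m := (a + c + (b + d)) / 2 with hm
    have hp : 0 ≤ (a + c) / m := by positivity
    have hq : 0 ≤ (b + d) / m := by positivity
    have hpq : (a + c) / m + (b + d) / m ≤ 2 := by
      rw [← add_div, div_le_iff₀ hS]
      linarith
    have hpa : (a + c) / m = 0 → a = 0 ∧ c = 0 := by
      intro h'
      rw [div_eq_zero_iff] at h'
      rcases h' with h' | h'
      · constructor <;> linarith
      · exact absurd h' hS.ne'
    have hqb : (b + d) / m = 0 → b = 0 ∧ d = 0 := by
      intro h'
      rw [div_eq_zero_iff] at h'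
      rcases h' with h' | h'
      · constructor <;> linarith
      · exact absurd h' hS.ne'
    have g1 := gibbs (a := a) (b := b) ha hb hp hq hpq (fun h => (hpa h).1) (fun h => (hqb h).1)
    have g2 := gibbs (a := c) (b := d) hc hd hp hq hpq (fun h => (hpa h).2) (fun h => (hqb h).2)
    have g3 : J (a + c) (b + d) =
        ((a + c) * Real.log ((a + c) / m) + (b + d) * Real.log ((b + d) / m)) / 2 := by
      rw [J_eq]
      have e1 : (a + c) * Real.log ((a + c) / m) = (a + c) * Real.log (a + c) -
          (a + c) * Real.log m := by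
        by_cases h0 : a + c = 0
        · rw [h0]; simp
        · rw [Real.log_div h0 hS.ne']; ring
      have e2 : (b + d) * Real.log ((b + d) / m) = (b + d) * Real.log (b + d) -
          (b + d) * Real.log m := by
        by_cases h0 : b + d = 0
        · rw [h0]; simp
        · rw [Real.log_div h0 hS.ne']; ring
      rw [e1, e2, ← hm]
      have : m = (a + c + (b + d)) / 2 := hm
      have h5 : (a + c) * Real.log m + (b + d) * Real.log m = 2 * m * Real.log m := by
        rw [this]; ring
      linarith
    rw [g3]
    linarith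

lemma J_sum_le {ι : Type*} (s : Finset ι) (x y : ι → ℝ) (hx : ∀ i ∈ s, 0 ≤ x i)
    (hy : ∀ i ∈ s, 0 ≤ y i) : J (∑ i ∈ s, x i) (∑ i ∈ s, y i) ≤ ∑ i ∈ s, J (x i) (y i) := by
  classical
  induction s using Finset.induction_on with
  | empty => simp [J_zero]
  | insert i s hi ih =>
    rw [Finset.sum_insert hi, Finset.sum_insert hi, Finset.sum_insert hi]
    have h1 := ih (fun j hj => hx j (Finset.mem_insert_of_mem hj))
      (fun j hj => hy j (Finset.mem_insert_of_mem hj))
    have h2 := J_add_le (hx i (Finset.mem_insert_self i s)) (hy i (Finset.mem_insert_self i s))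
      (Finset.sum_nonneg (fun j hj => hx j (Finset.mem_insert_of_mem hj)))
      (Finset.sum_nonneg (fun j hj => hy j (Finset.mem_insert_of_mem hj)))
    linarith

lemma J_lower {a b : ℝ} (ha : 0 ≤ a) (hb : 0 ≤ b) (ha1 : a ≤ 1) (hb1 : b ≤ 1) :
    (a - b) ^ 2 / 24 ≤ J a b := by
  set t := (a - b) / 4 with ht
  have ht1 : -(1 / 4) ≤ t := by rw [ht]; linarith
  have ht2 : t ≤ 1 / 4 := by rw [ht]; linarith
  have hlog : ∀ u : ℝ, -(1 / 4) ≤ u → u ≤ 1 / 4 → u - 4 / 3 * u ^ 2 ≤ Real.log (1 + u) := by
    intro u h1 h2
    have hpos : 0 < 1 + u := by linarith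
    have h3 := Real.one_sub_inv_le_log_of_pos hpos
    have h4 : u - 4 / 3 * u ^ 2 ≤ 1 - (1 + u)⁻¹ := by
      rw [le_sub_iff_add_le, ← sub_nonneg]
      have : 1 - (u - 4 / 3 * u ^ 2 + (1 + u)⁻¹) = u ^ 2 * (4 / 3 * (1 + u) - 1) / (1 + u) := by
        field_simp
        ring
      rw [this]
      apply div_nonneg _ hpos.le
      apply mul_nonneg (sq_nonneg u)
      linarith
    linarith
  have g := gibbs (a := a) (b := b) (p := 1 + t) (q := 1 - t) ha hb (by linarith) (by linarith)
    (by linarith) (fun h => by linarith) (fun h => by linarith)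
  have l1 := hlog t ht1 ht2
  have l2 := hlog (-t) (by linarith) (by linarith)
  have m1 : a * (t - 4 / 3 * t ^ 2) ≤ a * Real.log (1 + t) := mul_le_mul_of_nonneg_left l1 ha
  have m2 : b * (-t - 4 / 3 * (-t) ^ 2) ≤ b * Real.log (1 - t) := by
    have := mul_le_mul_of_nonneg_left l2 hb
    simpa [sub_eq_add_neg] using this
  have m3 : (a - b) ^ 2 / 24 ≤ (a * (t - 4 / 3 * t ^ 2) + b * (-t - 4 / 3 * (-t) ^ 2)) / 2 := by
    have hab : a - b = 4 * t := by rw [ht]; ring
    have : (a * (t - 4 / 3 * t ^ 2) + b * (-t - 4 / 3 * (-t) ^ 2)) / 2 =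
        ((a - b) * t - 4 / 3 * (a + b) * t ^ 2) / 2 := by ring
    rw [this, hab]
    nlinarith [sq_nonneg t]
  linarith

section Avg

variable {V : Type} [Fintype V] [DecidableEq V]

/-- The average over all configurations. -/
def mean (g : (V → Bool) → ℝ) : ℝ := (∑ ω, g ω) / 2 ^ Fintype.card V

/-- Average over the coordinates in `s`. -/
def T (s : Finset V) (g : (V → Bool) → ℝ) (ω : V → Bool) : ℝ :=
  mean (fun ω' => g (s.piecewise ω' ω))

lemma card_cfg : (∑ _ω : V → Bool, (1 : ℝ)) = 2 ^ Fintype.card V := by
  simp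

lemma mean_const (c : ℝ) : mean (fun _ : V → Bool => c) = c := by
  unfold mean
  have h := card_cfg (V := V)
  have : (∑ _ω : V → Bool, c) = c * 2 ^ Fintype.card V := by
    rw [← h, Finset.mul_sum]; simp
  rw [this]
  field_simp

lemma mean_add (g h : (V → Bool) → ℝ) : mean (fun ω => g ω + h ω) = mean g + mean h := by
  unfold mean
  rw [Finset.sum_add_distrib, add_div]

lemma mean_sub (g h : (V → Bool) → ℝ) : mean (fun ω => g ω - h ω) = mean g - mean h := by
  unfold mean
  rw [Finset.sum_sub_distrib, sub_div]

lemma mean_mul_const (g : (V → Bool) → ℝ) (c : ℝ) : mean (fun ω => g ω * c) = mean g * c := by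
  unfold mean
  rw [← Finset.sum_mul]
  ring

lemma mean_sum {ι : Type*} (s : Finset ι) (g : ι → (V → Bool) → ℝ) :
    mean (fun ω => ∑ i ∈ s, g i ω) = ∑ i ∈ s, mean (g i) := by
  unfold mean
  rw [Finset.sum_comm, Finset.sum_div]

lemma mean_le {g h : (V → Bool) → ℝ} (hgh : ∀ ω, g ω ≤ h ω) : mean g ≤ mean h := by
  unfold mean
  apply div_le_div_of_nonneg_right _ (by positivity)
  exact Finset.sum_le_sum (fun ω _ => hgh ω)

lemma mean_nonneg {g : (V → Bool) → ℝ} (hg : ∀ ω, 0 ≤ g ω) : 0 ≤ mean g := by
  have := mean_le hg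
  rwa [mean_const] at this

lemma mean_le_one {g : (V → Bool) → ℝ} (hg : ∀ ω, g ω ≤ 1) : mean g ≤ 1 := by
  have := mean_le hg
  rwa [mean_const] at this

/-- Flip coordinate `i`. -/
def flipE (i : V) : (V → Bool) ≃ (V → Bool) where
  toFun ω := Function.update ω i (!ω i)
  invFun ω := Function.update ω i (!ω i)
  left_inv ω := by simp
  right_inv ω := by simp

lemma mean_flip (i : V) (g : (V → Bool) → ℝ) :
    mean (fun ω => g (Function.update ω i (!ω i))) = mean g := by
  unfold mean
  congr 1
  exact Equiv.sum_comp (flipE i) g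

/-- averaging one coordinate preserves the mean -/
lemma mean_upd (i : V) (g : (V → Bool) → ℝ) :
    mean (fun ω => (g (Function.update ω i false) + g (Function.update ω i true)) / 2) =
      mean g := by
  have h : (fun ω : V → Bool => (g (Function.update ω i false) + g (Function.update ω i true)) / 2)
      = fun ω => (g ω + g (Function.update ω i (!ω i))) * (1 / 2) := by
    funext ω
    have hself : Function.update ω i (ω i) = ω := Function.update_eq_self i ω
    cases hω : ω i with
    | false =>
      have : Function.update ω i false = ω := by rw [← hω]; exact hself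
      rw [this]; simp; ring
    | true =>
      have : Function.update ω i true = ω := by rw [← hω]; exact hself
      rw [this]; simp; ring
  rw [h, mean_mul_const, mean_add, mean_flip]
  ring

lemma T_empty (g : (V → Bool) → ℝ) (ω : V → Bool) : T ∅ g ω = g ω := by
  unfold T
  simp only [Finset.piecewise_empty]
  exact mean_const _

lemma T_univ (g : (V → Bool) → ℝ) (ω : V → Bool) : T Finset.univ g ω = mean g := by
  unfold T
  simp only [Finset.piecewise_univ]

lemma T_insert {s : Finset V} {i : V} (hi : i ∉ s) (g : (V → Bool) → ℝ) (ω : V → Bool) :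
    T (insert i s) g ω =
      (T s g (Function.update ω i false) + T s g (Function.update ω i true)) / 2 := by
  unfold T
  have h1 : ∀ ω' : V → Bool, (insert i s).piecewise ω' ω =
      s.piecewise ω' (Function.update ω i (ω' i)) := by
    intro ω'
    ext j
    by_cases hj : j = i
    · subst hj
      simp [hi]
    · by_cases hjs : j ∈ s
      · simp [hjs]
      · simp [hjs, hj]
  simp_rw [h1]
  rw [← mean_upd i (fun ω' => g (s.piecewise ω' (Function.update ω i (ω' i))))]
  have h2 : ∀ (ω' : V → Bool) (b : Bool) (τ : V → Bool),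
      s.piecewise (Function.update ω' i b) τ = s.piecewise ω' τ := by
    intro ω' b τ
    ext j
    by_cases hj : j = i
    · subst hj
      simp [hi]
    · by_cases hjs : j ∈ s
      · simp [hjs, hj]
      · simp [hjs]
  simp only [h2, Function.update_self]
  have h3 : (fun ω' : V → Bool => (g (s.piecewise ω' (Function.update ω i false)) +
      g (s.piecewise ω' (Function.update ω i true))) / 2) =
      fun ω' => (g (s.piecewise ω' (Function.update ω i false)) +
      g (s.piecewise ω' (Function.update ω i true))) * (1 / 2) := by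
    funext ω'; ring
  rw [h3, mean_mul_const, mean_add]
  ring

lemma T_nonneg {s : Finset V} {g : (V → Bool) → ℝ} (hg : ∀ ω, 0 ≤ g ω) (ω : V → Bool) :
    0 ≤ T s g ω := mean_nonneg (fun _ => hg _)

lemma T_le_one {s : Finset V} {g : (V → Bool) → ℝ} (hg : ∀ ω, g ω ≤ 1) (ω : V → Bool) :
    T s g ω ≤ 1 := mean_le_one (fun _ => hg _)

lemma T_sum {ι : Type*} (t : Finset ι) (s : Finset V) (g : ι → (V → Bool) → ℝ) (ω : V → Bool) :
    T s (fun ω => ∑ i ∈ t, g i ω) ω = ∑ i ∈ t, T s (g i) ω := mean_sum t _

/-- `mean (T s g * χ) = mean (g * χ)` if `χ` does not depend on `s`. -/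
lemma mean_T_mul (s : Finset V) (g χ : (V → Bool) → ℝ)
    (hχ : ∀ i ∈ s, ∀ ω b, χ (Function.update ω i b) = χ ω) :
    mean (fun ω => T s g ω * χ ω) = mean (fun ω => g ω * χ ω) := by
  induction s using Finset.induction_on with
  | empty => simp only [T_empty]
  | insert i s hi ih =>
    rw [← ih (fun j hj => hχ j (Finset.mem_insert_of_mem hj)),
      ← mean_upd i (fun ω => T s g ω * χ ω)]
    congr 1
    funext ω
    rw [T_insert hi, hχ i (Finset.mem_insert_self i s), hχ i (Finset.mem_insert_self i s)]
    ring

/-- `T s` does not see coordinates on which `g` does not depend. -/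
lemma T_upd_of_indep {s : Finset V} {g : (V → Bool) → ℝ} {i : V}
    (hg : ∀ ω b, g (Function.update ω i b) = g ω) (ω : V → Bool) (b : Bool) :
    T s g (Function.update ω i b) = T s g ω := by
  unfold T
  congr 1
  funext ω'
  by_cases hi : i ∈ s
  · congr 1
    ext j
    by_cases hj : j = i
    · subst hj; simp [hi]
    · by_cases hjs : j ∈ s
      · simp [hjs]
      · simp [hjs, hj]
  · have : s.piecewise ω' (Function.update ω i b) =
        Function.update (s.piecewise ω' ω) i b := by
      ext j
      by_cases hj : j = i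
      · subst hj; simp [hi]
      · by_cases hjs : j ∈ s
        · simp [hjs, hj]
        · simp [hjs, hj]
    rw [this, hg]

variable {α β : Type} [Fintype α] [DecidableEq α] [Fintype β] [DecidableEq β]

/-- Indicator of `F = a`. -/
def ind (F : (V → Bool) → α) (a : α) (ω : V → Bool) : ℝ := if F ω = a then 1 else 0

lemma ind_nonneg (F : (V → Bool) → α) (a : α) (ω : V → Bool) : 0 ≤ ind F a ω := by
  unfold ind; split_ifs <;> norm_num

lemma ind_le_one (F : (V → Bool) → α) (a : α) (ω : V → Bool) : ind F a ω ≤ 1 := by
  unfold ind; split_ifs <;> norm_num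

/-- Entropy of `F`. -/
def Hent (F : (V → Bool) → α) : ℝ := ∑ a, Real.negMulLog (mean (ind F a))

/-- Information that coordinate `h` gives on `F` when exactly the coordinates in `insert h s`
are unknown. -/
def Inf (F : (V → Bool) → α) (h : V) (s : Finset V) : ℝ :=
  ∑ a, mean (fun ω => J (T s (ind F a) (Function.update ω h false))
    (T s (ind F a) (Function.update ω h true)))

lemma Inf_nonneg (F : (V → Bool) → α) (h : V) (s : Finset V) : 0 ≤ Inf F h s :=
  Finset.sum_nonneg (fun a _ => mean_nonneg (fun ω => J_nonneg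
    (T_nonneg (ind_nonneg F a) _) (T_nonneg (ind_nonneg F a) _)))

lemma Inf_eq_zero (F : (V → Bool) → α) (h : V) (s : Finset V)
    (hF : ∀ ω b, F (Function.update ω h b) = F ω) : Inf F h s = 0 := by
  unfold Inf
  apply Finset.sum_eq_zero
  intro a _
  have h1 : ∀ ω b, ind F a (Function.update ω h b) = ind F a ω := by
    intro ω b; unfold ind; rw [hF]
  have h2 : ∀ ω : V → Bool, J (T s (ind F a) (Function.update ω h false))
    (T s (ind F a) (Function.update ω h true)) = 0 := by
    intro ω
    rw [T_upd_of_indep h1, T_upd_of_indep h1]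
    unfold J
    have : (T s (ind F a) ω + T s (ind F a) ω) / 2 = T s (ind F a) ω := by ring
    rw [this]; ring
  simp only [h2]
  exact mean_const 0

lemma Inf_step (F : (V → Bool) → α) {h : V} {s : Finset V} (hs : h ∉ s) :
    Inf F h s = ∑ a, (mean (fun ω => Real.negMulLog (T (insert h s) (ind F a) ω)) -
      mean (fun ω => Real.negMulLog (T s (ind F a) ω))) := by
  unfold Inf
  apply Finset.sum_congr rfl
  intro a _
  rw [← mean_upd h (fun ω => Real.negMulLog (T s (ind F a) ω)), ← mean_sub]
  congr 1
  funext ω
  rw [T_insert hs]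
  rfl

/-- data processing -/
lemma Inf_comp_le (F : (V → Bool) → α) (φ : α → β) (h : V) (s : Finset V) :
    Inf (fun ω => φ (F ω)) h s ≤ Inf F h s := by
  unfold Inf
  have h1 : ∀ b : β, ind (fun ω => φ (F ω)) b = fun ω => ∑ a with φ a = b, ind F a ω := by
    intro b
    funext ω
    unfold ind
    rw [Finset.sum_ite_eq]
    simp
  have h2 : ∀ b : β, mean (fun ω => J (T s (ind (fun ω => φ (F ω)) b) (Function.update ω h false))
      (T s (ind (fun ω => φ (F ω)) b) (Function.update ω h true))) ≤
      ∑ a with φ a = b, mean (fun ω => J (T s (ind F a) (Function.update ω h false))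
        (T s (ind F a) (Function.update ω h true))) := by
    intro b
    rw [← mean_sum]
    apply mean_le
    intro ω
    rw [h1 b, T_sum, T_sum]
    exact J_sum_le _ _ _ (fun a _ => T_nonneg (ind_nonneg F a) _)
      (fun a _ => T_nonneg (ind_nonneg F a) _)
  refine (Finset.sum_le_sum (fun b _ => h2 b)).trans ?_
  rw [Finset.sum_fiberwise]

end Avg

section Chain

variable {V : Type} [Fintype V] [LinearOrder V]

lemma telescope (φ : Finset V → ℝ) (s : Finset V) :
    ∑ h ∈ s, (φ (s.filter (h ≤ ·)) - φ (s.filter (h < ·))) = φ s - φ ∅ := by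
  induction s using Finset.induction_on_min with
  | empty => simp
  | insert a s ha ih =>
    have hnot : a ∉ s := fun h => lt_irrefl a (ha a h)
    rw [Finset.sum_insert hnot]
    have e1 : (insert a s).filter (a ≤ ·) = insert a s := by
      apply Finset.filter_true_of_mem
      intro x hx
      rcases Finset.mem_insert.1 hx with h | h
      · exact h.ge
      · exact (ha x h).le
    have e2 : (insert a s).filter (a < ·) = s := by
      ext x
      simp only [Finset.mem_filter, Finset.mem_insert]
      constructor
      · rintro ⟨h1 | h1, h2⟩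
        · exact absurd h2 (by rw [h1]; exact lt_irrefl a)
        · exact h1
      · intro h
        exact ⟨Or.inr h, ha x h⟩
    have e3 : ∀ h ∈ s, (insert a s).filter (h ≤ ·) = s.filter (h ≤ ·) := by
      intro h hh
      ext x
      simp only [Finset.mem_filter, Finset.mem_insert]
      constructor
      · rintro ⟨h1 | h1, h2⟩
        · rw [h1] at h2
          exact absurd (ha h hh) (not_lt.2 h2)
        · exact ⟨h1, h2⟩
      · rintro ⟨h1, h2⟩
        exact ⟨Or.inr h1, h2⟩
    have e4 : ∀ h ∈ s, (insert a s).filter (h < ·) = s.filter (h < ·) := by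
      intro h hh
      ext x
      simp only [Finset.mem_filter, Finset.mem_insert]
      constructor
      · rintro ⟨h1 | h1, h2⟩
        · rw [h1] at h2
          exact absurd (ha h hh) (not_lt.2 h2.le)
        · exact ⟨h1, h2⟩
      · rintro ⟨h1, h2⟩
        exact ⟨Or.inr h1, h2⟩
    have e5 : ∑ h ∈ s, (φ ((insert a s).filter (h ≤ ·)) - φ ((insert a s).filter (h < ·))) =
        ∑ h ∈ s, (φ (s.filter (h ≤ ·)) - φ (s.filter (h < ·))) := by
      apply Finset.sum_congr rfl
      intro h hh
      rw [e3 h hh, e4 h hh]
    rw [e5, ih, e1, e2]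
    ring

variable {α : Type} [Fintype α] [DecidableEq α]

/-- The coordinates above `h`. -/
def up (h : V) : Finset V := Finset.univ.filter (h < ·)

lemma not_mem_up (h : V) : h ∉ up h := by simp [up]

/-- chain rule -/
theorem chain (F : (V → Bool) → α) : Hent F = ∑ h, Inf F h (up h) := by
  set φ : Finset V → ℝ := fun s => ∑ a, mean (fun ω => Real.negMulLog (T s (ind F a) ω)) with hφ
  have h1 := telescope φ Finset.univ
  have h2 : φ Finset.univ = Hent F := by
    simp only [hφ, T_univ]
    unfold Hent
    apply Finset.sum_congr rfl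
    intro a _
    exact mean_const _
  have h3 : φ ∅ = 0 := by
    simp only [hφ, T_empty]
    apply Finset.sum_eq_zero
    intro a _
    have : (fun ω : V → Bool => Real.negMulLog (ind F a ω)) = fun _ => 0 := by
      funext ω
      unfold ind
      split_ifs <;> simp
    rw [this]
    exact mean_const 0
  have h4 : ∀ h : V, Inf F h (up h) =
      φ (Finset.univ.filter (h ≤ ·)) - φ (Finset.univ.filter (h < ·)) := by
    intro h
    rw [Inf_step F (not_mem_up h)]
    have : insert h (up h) = Finset.univ.filter (h ≤ ·) := by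
      ext x
      simp only [up, Finset.mem_insert, Finset.mem_filter, Finset.mem_univ, true_and]
      rw [le_iff_eq_or_lt, eq_comm]
    rw [this, Finset.sum_sub_distrib]
    rfl
  simp_rw [h4]
  rw [h1, h2, h3, sub_zero]

end Chain

end

end Pool.Agent.V11256.KS
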