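import Mathlib

set_option autoImplicit false
set_option linter.unusedSectionVars false
set_option linter.unusedVariables false

open Finset

namespace Pool.Agent.V11256.KS

noncomputable section

variable {n : ℕ}

abbrev FG (n : ℕ) := FreeGroup (Fin n)

/-- length of the reduced word -/
def len (v : FG n) : ℕ := v.toWord.length

lemma len_one : len (1 : FG n) = 0 := by simp [len]

lemma toWord_cons_mul (x hd : Fin n × Bool) (tl : List (Fin n × Bool)) (v : FG n)
    (hv : v.toWord = hd :: tl) (h : ¬ (x.1 = hd.1 ∧ x.2 = !hd.2)) :
    (FreeGroup.mk [x] * v).toWord = x :: hd :: tl := by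
  have h1 : FreeGroup.mk [x] * v = FreeGroup.mk (x :: v.toWord) := by
    conv_lhs => rw [← FreeGroup.mk_toWord (x := v)]
    rw [FreeGroup.mul_mk]
    rfl
  rw [h1, FreeGroup.toWord_mk, FreeGroup.reduce.cons, FreeGroup.reduce_toWord, hv]
  simp only
  rw [if_neg h]

lemma mk_true (i : Fin n) : (FreeGroup.mk [(i, true)] : FG n) = FreeGroup.of i := rfl

lemma mk_false (i : Fin n) : (FreeGroup.mk [(i, false)] : FG n) = (FreeGroup.of i)⁻¹ := rfl

/-- Membership of `w` in the star with root `r`. -/
def InStar (r w : FG n) : Prop := w = r ∨ ∃ i, w = FreeGroup.of i * r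

lemma special_roots (v : FG n) (hv : v ≠ 1) : ∃ Ro : Finset (FG n), Ro.card = n ∧
    (∀ r ∈ Ro, InStar r v) ∧ ∀ r ∈ Ro, ∀ w, InStar r w → w = v ∨ len v < len w := by
  classical
  obtain ⟨hd, tl, hw⟩ : ∃ hd tl, v.toWord = hd :: tl := by
    cases h : v.toWord with
    | nil => exact absurd (FreeGroup.toWord_eq_nil_iff.1 h) hv
    | cons a l => exact ⟨a, l, rfl⟩
  have hlen : len v = tl.length + 1 := by simp [len, hw]
  have hinj : Function.Injective (fun i : Fin n => (FreeGroup.of i)⁻¹ * v) := by
    intro i j h
    have h' : (FreeGroup.of i : FG n)⁻¹ = (FreeGroup.of j)⁻¹ := mul_right_cancel h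
    exact FreeGroup.of_injective (inv_injective h')
  -- stars rooted at `a_i⁻¹ v` when `v` does not start with `a_i`
  have key : ∀ i : Fin n, ¬ (i = hd.1 ∧ hd.2 = true) →
      ∀ w, InStar ((FreeGroup.of i)⁻¹ * v) w → w = v ∨ len v < len w := by
    intro i hi w hw'
    have h1 : ((FreeGroup.of i : FG n)⁻¹ * v).toWord = (i, false) :: hd :: tl := by
      rw [← mk_false]
      apply toWord_cons_mul _ _ _ _ hw
      rintro ⟨h1, h2⟩
      apply hi
      refine ⟨h1, ?_⟩
      simpa using h2
    rcases hw' with h | ⟨j, h⟩
    · right
      rw [h, hlen, len, h1]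
      simp
    · by_cases hij : j = i
      · left
        rw [h, hij]
        group
      · right
        have h2 : ((FreeGroup.of j : FG n) * ((FreeGroup.of i)⁻¹ * v)).toWord =
            (j, true) :: (i, false) :: (hd :: tl) := by
          rw [← mk_true]
          apply toWord_cons_mul _ _ _ _ h1
          rintro ⟨h3, _⟩
          exact hij h3
        rw [h, hlen, len, h2]
        simp
  have hin : ∀ i : Fin n, InStar ((FreeGroup.of i)⁻¹ * v) v := by
    intro i
    right
    refine ⟨i, ?_⟩
    group
  by_cases hb : hd.2 = true
  · -- `v` starts with `a_k`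
    refine ⟨insert v (((Finset.univ : Finset (Fin n)).erase hd.1).image
      (fun i => (FreeGroup.of i)⁻¹ * v)), ?_, ?_, ?_⟩
    · rw [Finset.card_insert_of_notMem, Finset.card_image_of_injective _ hinj,
        Finset.card_erase_of_mem (Finset.mem_univ _), Finset.card_univ, Fintype.card_fin]
      · have : 0 < n := lt_of_le_of_lt (Nat.zero_le _) hd.1.2
        omega
      · intro h
        rw [Finset.mem_image] at h
        obtain ⟨i, _, hi⟩ := h
        have : (FreeGroup.of i : FG n)⁻¹ = 1 := by
          have h2 : (FreeGroup.of i : FG n)⁻¹ * v = 1 * v := by rw [hi, one_mul]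
          exact mul_right_cancel h2
        exact FreeGroup.of_ne_one i (inv_eq_one.1 this)
    · intro r hr
      rw [Finset.mem_insert, Finset.mem_image] at hr
      rcases hr with rfl | ⟨i, _, rfl⟩
      · exact Or.inl rfl
      · exact hin i
    · intro r hr
      rw [Finset.mem_insert, Finset.mem_image] at hr
      rcases hr with rfl | ⟨i, hi, rfl⟩
      · intro w hw'
        rcases hw' with h | ⟨j, h⟩
        · exact Or.inl h
        · right
          have h1 : ((FreeGroup.of j : FG n) * r).toWord = (j, true) :: hd :: tl := by
            rw [← mk_true]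
            apply toWord_cons_mul _ _ _ _ hw
            rintro ⟨_, h2⟩
            rw [hb] at h2
            simp at h2
          rw [h, hlen, len, h1]
          simp
      · apply key i
        rintro ⟨h1, _⟩
        exact (Finset.mem_erase.1 hi).1 h1
  · refine ⟨(Finset.univ : Finset (Fin n)).image (fun i => (FreeGroup.of i)⁻¹ * v), ?_, ?_, ?_⟩
    · rw [Finset.card_image_of_injective _ hinj, Finset.card_univ, Fintype.card_fin]
    · intro r hr
      rw [Finset.mem_image] at hr
      obtain ⟨i, _, rfl⟩ := hr
      exact hin i
    · intro r hr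
      rw [Finset.mem_image] at hr
      obtain ⟨i, _, rfl⟩ := hr
      apply key i
      rintro ⟨_, h2⟩
      exact hb h2

/-- The star inequality on the free group. -/
theorem star_ineq (L : Finset (FG n)) : ∀ (X Z : FG n → ℝ) (R : Finset (FG n)),
    (∀ w, 0 ≤ X w) → (∀ w, 0 ≤ Z w) → (∀ w, w ∉ L → X w = 0) →
    (∀ r w, InStar r w → X w ≤ Z r) → (∀ r w, w ∈ L → InStar r w → r ∈ R) →
    n * ∑ w ∈ L, X w + X 1 ≤ ∑ r ∈ R, Z r := by
  classical
  induction L using Finset.strongInduction with
  | H L ih =>
    intro X Z R hX hZ hXL hXZ hR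
    by_cases hL : (L.erase 1).Nonempty
    · obtain ⟨v, hv, hmax⟩ := Finset.exists_max_image (L.erase 1) len hL
      have hv1 : v ≠ 1 := (Finset.mem_erase.1 hv).1
      have hvL : v ∈ L := (Finset.mem_erase.1 hv).2
      obtain ⟨Ro, hcard, hRo1, hRo2⟩ := special_roots v hv1
      have hmax' : ∀ w ∈ L, len w ≤ len v := by
        intro w hw
        by_cases h1 : w = 1
        · rw [h1, len_one]; exact Nat.zero_le _
        · exact hmax w (Finset.mem_erase.2 ⟨h1, hw⟩)
      set X' : FG n → ℝ := fun w => if w = v then 0 else X w with hX'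
      set Z' : FG n → ℝ := fun r => if r ∈ Ro then 0 else Z r with hZ'
      have hX'L : ∀ w, w ∉ L.erase v → X' w = 0 := by
        intro w hw
        simp only [hX']
        split_ifs with h
        · rfl
        · apply hXL
          intro hwL
          exact hw (Finset.mem_erase.2 ⟨h, hwL⟩)
      have h1 := ih (L.erase v) (Finset.erase_ssubset hvL) X' Z' R
        (by intro w; simp only [hX']; split_ifs <;> [exact le_rfl; exact hX w])
        (by intro w; simp only [hZ']; split_ifs <;> [exact le_rfl; exact hZ w])
        hX'L
        (by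
          intro r w hrw
          simp only [hZ']
          split_ifs with h
          · apply le_of_eq
            rcases hRo2 r h w hrw with h2 | h2
            · simp [hX', h2]
            · apply hX'L
              intro hwL
              exact absurd (hmax' w (Finset.mem_of_mem_erase hwL)) (not_le.2 h2)
          · refine le_trans ?_ (hXZ r w hrw)
            simp only [hX']
            split_ifs with h3
            · exact hX w
            · exact le_rfl)
        (fun r w hw hrw => hR r w (Finset.mem_of_mem_erase hw) hrw)
      have h2 : X' 1 = X 1 := by simp [hX', Ne.symm hv1]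
      have h3 : ∑ w ∈ L, X w = X v + ∑ w ∈ L.erase v, X' w := by
        rw [← Finset.add_sum_erase L X hvL]
        congr 1
        apply Finset.sum_congr rfl
        intro w hw
        simp [hX', (Finset.mem_erase.1 hw).1]
      have hsub : Ro ⊆ R := fun r hr => hR r v hvL (hRo1 r hr)
      have h4 : ∑ r ∈ R, Z r = ∑ r ∈ R, Z' r + ∑ r ∈ Ro, Z r := by
        have e1 : ∀ r ∈ R, Z r = Z' r + (if r ∈ Ro then Z r else 0) := by
          intro r _
          simp only [hZ']
          split_ifs <;> simp
        rw [Finset.sum_congr rfl e1, Finset.sum_add_distrib]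
        congr 1
        rw [← Finset.sum_filter]
        apply Finset.sum_congr _ (fun _ _ => rfl)
        ext r
        simp only [Finset.mem_filter]
        exact ⟨fun h => h.2, fun h => ⟨hsub h, h⟩⟩
      have h5 : (n : ℝ) * X v ≤ ∑ r ∈ Ro, Z r := by
        have : ∑ _r ∈ Ro, X v = n * X v := by
          rw [Finset.sum_const, hcard, nsmul_eq_mul]
        rw [← this]
        exact Finset.sum_le_sum (fun r hr => hXZ r v (hRo1 r hr))
      rw [h3, h4]
      rw [h2] at h1
      have h6 : (n : ℝ) * (X v + ∑ w ∈ L.erase v, X' w) =
          n * X v + n * ∑ w ∈ L.erase v, X' w := by ring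
      rw [h6]
      linarith
    · -- `L ⊆ {1}`
      rw [Finset.not_nonempty_iff_eq_empty] at hL
      by_cases h1 : (1 : FG n) ∈ L
      · have hL1 : L = {1} := by
          rw [← Finset.insert_erase h1, hL]
          rfl
        subst hL1
        rw [Finset.sum_singleton]
        set Ro : Finset (FG n) := insert 1 ((Finset.univ : Finset (Fin n)).image
          (fun i => (FreeGroup.of i : FG n)⁻¹)) with hRo
        have hinj : Function.Injective (fun i : Fin n => (FreeGroup.of i : FG n)⁻¹) := by
          intro i j h
          exact FreeGroup.of_injective (inv_injective h)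
        have hcard : Ro.card = n + 1 := by
          rw [hRo, Finset.card_insert_of_notMem, Finset.card_image_of_injective _ hinj,
            Finset.card_univ, Fintype.card_fin]
          intro h
          rw [Finset.mem_image] at h
          obtain ⟨i, _, hi⟩ := h
          exact FreeGroup.of_ne_one i (inv_eq_one.1 hi)
        have hst : ∀ r ∈ Ro, InStar r (1 : FG n) := by
          intro r hr
          rw [hRo, Finset.mem_insert, Finset.mem_image] at hr
          rcases hr with rfl | ⟨i, _, rfl⟩
          · exact Or.inl rfl
          · exact Or.inr ⟨i, by group⟩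
        have hsub : Ro ⊆ R := fun r hr => hR r 1 (Finset.mem_singleton_self 1) (hst r hr)
        have h5 : ((n : ℝ) + 1) * X 1 ≤ ∑ r ∈ Ro, Z r := by
          have : ∑ _r ∈ Ro, X 1 = ((n : ℝ) + 1) * X 1 := by
            rw [Finset.sum_const, hcard, nsmul_eq_mul]
            push_cast
            rfl
          rw [← this]
          exact Finset.sum_le_sum (fun r hr => hXZ r 1 (hst r hr))
        have h6 : ∑ r ∈ Ro, Z r ≤ ∑ r ∈ R, Z r :=
          Finset.sum_le_sum_of_subset_of_nonneg hsub (fun r _ _ => hZ r)
        linarith
      · have hL0 : L = ∅ := by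
          rw [← Finset.erase_eq_of_notMem h1, hL]
        subst hL0
        rw [hXL 1 h1]
        simp only [Finset.sum_empty, mul_zero, add_zero]
        exact Finset.sum_nonneg (fun r _ => hZ r)

end

end Pool.Agent.V11256.KS
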