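import Pool.Agent.V11256.KS.Ent
import Pool.Agent.V11256.KS.Tree

set_option autoImplicit false
set_option linter.unusedSectionVars false
set_option linter.unusedVariables false

open Finset

namespace Pool.Agent.V11256.KS

noncomputable section

def sgn (b : Bool) : ℝ := if b then -1 else 1

lemma sgn_false : sgn false = 1 := by simp [sgn]
lemma sgn_true : sgn true = -1 := by simp [sgn]
lemma abs_sgn (b : Bool) : |sgn b| = 1 := by cases b <;> simp [sgn]

section Corr

variable {V : Type} [Fintype V] [DecidableEq V]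

lemma sq_mean_le (g : (V → Bool) → ℝ) : mean g ^ 2 ≤ mean (fun ω => g ω ^ 2) := by
  set m := mean g with hm
  have h1 : 0 ≤ mean (fun ω => (g ω - m) ^ 2) := mean_nonneg (fun ω => sq_nonneg _)
  have h2 : (fun ω => (g ω - m) ^ 2) = fun ω => (g ω ^ 2 + g ω * (-2 * m)) + m ^ 2 := by
    funext ω; ring
  rw [h2, mean_add, mean_add, mean_mul_const, mean_const, ← hm] at h1
  nlinarith

lemma abs_mean_le (g : (V → Bool) → ℝ) : |mean g| ≤ mean (fun ω => |g ω|) := by
  rw [abs_le]
  constructor
  · have : mean (fun ω => |g ω|) + mean g = mean (fun ω => |g ω| + g ω) := (mean_add _ _).symm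
    have h2 : 0 ≤ mean (fun ω => |g ω| + g ω) :=
      mean_nonneg (fun ω => by linarith [neg_abs_le (g ω)])
    linarith
  · exact mean_le (fun ω => le_abs_self _)

lemma Inf_corr (F : (V → Bool) → Bool) (U : Finset V) (w : V) (s : Finset V) (hw : w ∈ U)
    (hU : ∀ u ∈ U, u ∉ s) :
    (mean (fun ω => ind F true ω * ∏ u ∈ U, sgn (ω u))) ^ 2 / 6 ≤ Inf F w s := by
  set g := ind F true with hg
  set u0 : (V → Bool) → ℝ := fun ω => T s g (Function.update ω w false) with hu0
  set u1 : (V → Bool) → ℝ := fun ω => T s g (Function.update ω w true) with hu1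
  have h1 : mean (fun ω => T s g ω * ∏ u ∈ U, sgn (ω u)) =
      mean (fun ω => g ω * ∏ u ∈ U, sgn (ω u)) := by
    apply mean_T_mul
    intro i hi ω b
    apply Finset.prod_congr rfl
    intro u hu
    rw [Function.update_of_ne]
    rintro rfl
    exact hU u hu hi
  rw [← h1, ← mean_upd w]
  have h2 : ∀ ω : V → Bool, (T s g (Function.update ω w false) *
      ∏ u ∈ U, sgn (Function.update ω w false u) + T s g (Function.update ω w true) *
      ∏ u ∈ U, sgn (Function.update ω w true u)) / 2 =
      (u0 ω - u1 ω) / 2 * ∏ u ∈ U.erase w, sgn (ω u) := by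
    intro ω
    have e : ∀ b : Bool, ∏ u ∈ U, sgn (Function.update ω w b u) =
        sgn b * ∏ u ∈ U.erase w, sgn (ω u) := by
      intro b
      rw [← Finset.mul_prod_erase U _ hw, Function.update_self]
      congr 1
      apply Finset.prod_congr rfl
      intro u hu
      rw [Function.update_of_ne (Finset.mem_erase.1 hu).1]
    rw [e, e, sgn_false, sgn_true]
    simp only [hu0, hu1]
    ring
  simp only [h2]
  have h3 : ∀ ω : V → Bool, |(u0 ω - u1 ω) / 2 * ∏ u ∈ U.erase w, sgn (ω u)| =
      |(u0 ω - u1 ω) / 2| := by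
    intro ω
    rw [abs_mul, Finset.abs_prod]
    simp [abs_sgn]
  have h4 : (mean (fun ω => (u0 ω - u1 ω) / 2 * ∏ u ∈ U.erase w, sgn (ω u))) ^ 2 ≤
      mean (fun ω => ((u0 ω - u1 ω) / 2) ^ 2) := by
    have a1 := abs_mean_le (fun ω => (u0 ω - u1 ω) / 2 * ∏ u ∈ U.erase w, sgn (ω u))
    simp only [h3] at a1
    have a2 := sq_mean_le (fun ω => |(u0 ω - u1 ω) / 2|)
    simp only [sq_abs] at a2
    calc _ = |mean (fun ω => (u0 ω - u1 ω) / 2 * ∏ u ∈ U.erase w, sgn (ω u))| ^ 2 :=
        (sq_abs _).symm
      _ ≤ (mean (fun ω => |(u0 ω - u1 ω) / 2|)) ^ 2 := by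
        apply pow_le_pow_left₀ (abs_nonneg _) a1
      _ ≤ _ := a2
  have h5 : mean (fun ω => ((u0 ω - u1 ω) / 2) ^ 2) / 6 ≤ mean (fun ω => J (u0 ω) (u1 ω)) := by
    have : mean (fun ω => ((u0 ω - u1 ω) / 2) ^ 2) / 6 =
        mean (fun ω => ((u0 ω - u1 ω) / 2) ^ 2 * (1 / 6)) := by
      rw [mean_mul_const]; ring
    rw [this]
    apply mean_le
    intro ω
    have := J_lower (a := u0 ω) (b := u1 ω) (T_nonneg (ind_nonneg F true) _)
      (T_nonneg (ind_nonneg F true) _) (T_le_one (ind_le_one F true) _)
      (T_le_one (ind_le_one F true) _)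
    linarith
  have h6 : mean (fun ω => J (u0 ω) (u1 ω)) ≤ Inf F w s := by
    unfold Inf
    exact Finset.single_le_sum (f := fun a => mean (fun ω =>
      J (T s (ind F a) (Function.update ω w false)) (T s (ind F a) (Function.update ω w true))))
      (fun a _ => mean_nonneg (fun ω => J_nonneg
        (T_nonneg (ind_nonneg F a) _) (T_nonneg (ind_nonneg F a) _))) (Finset.mem_univ true)
  linarith

end Corr

section Model

variable {n : ℕ} {G : Type} [Group G] [Fintype G] [LinearOrder G] (π : FG n →* G)

/-- The configuration on the free group seen from `v`. -/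
def pull (v : G) (ω : G → Bool) : FG n → Bool := fun h => ω (π h * v)

/-- The factor map at the vertex `v`. -/
def fv (φ : (FG n → Bool) → Bool) (v : G) (ω : G → Bool) : Bool := φ (pull π v ω)

/-- The values on the out-star of `v`. -/
def star (φ : (FG n → Bool) → Bool) (v : G) (ω : G → Bool) : Bool × (Fin n → Bool) :=
  (fv π φ v ω, fun i => fv π φ (π (FreeGroup.of i) * v) ω)

/-- Right translation of configurations. -/
def rho (v : G) : (G → Bool) ≃ (G → Bool) where
  toFun ω := fun k => ω (k * v)
  invFun ω := fun k => ω (k * v⁻¹)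
  left_inv ω := by funext k; simp
  right_inv ω := by funext k; simp

omit [LinearOrder G] in
lemma mean_rho [DecidableEq G] (v : G) (g : (G → Bool) → ℝ) :
    mean (fun ω => g (rho v ω)) = mean g := by
  unfold mean
  congr 1
  exact Equiv.sum_comp (rho v) g

lemma fv_rho (φ : (FG n → Bool) → Bool) (v u : G) (ω : G → Bool) :
    fv π φ (u * v) ω = fv π φ u (rho v ω) := by
  unfold fv pull rho
  simp [mul_assoc]

lemma Hent_fv (φ : (FG n → Bool) → Bool) (v : G) : Hent (fv π φ v) = Hent (fv π φ 1) := by
  unfold Hent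
  apply Finset.sum_congr rfl
  intro a _
  congr 1
  rw [← mean_rho v (ind (fv π φ 1) a)]
  congr 1
  funext ω
  unfold ind
  rw [← fv_rho π φ v 1 ω, one_mul]

lemma Hent_star (φ : (FG n → Bool) → Bool) (v : G) :
    Hent (star π φ v) = Hent (star π φ 1) := by
  unfold Hent
  apply Finset.sum_congr rfl
  intro a _
  congr 1
  rw [← mean_rho v (ind (star π φ 1) a)]
  congr 1
  funext ω
  unfold ind star
  simp only [mul_one]
  rw [← fv_rho π φ v 1 ω, one_mul]
  simp only [fv_rho π φ v]

/-- The roots of the stars meeting `N`. -/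
def roots (N : Finset (FG n)) : Finset (FG n) :=
  N ∪ N.biUnion (fun w => (Finset.univ : Finset (Fin n)).image (fun i => (FreeGroup.of i)⁻¹ * w))

lemma mem_roots {N : Finset (FG n)} {r w : FG n} (hw : w ∈ N) (h : InStar r w) :
    r ∈ roots N := by
  unfold roots
  rw [Finset.mem_union, Finset.mem_biUnion]
  rcases h with h | ⟨i, h⟩
  · left; rw [← h]; exact hw
  · right
    refine ⟨w, hw, ?_⟩
    rw [Finset.mem_image]
    exact ⟨i, Finset.mem_univ i, by rw [h]; group⟩

lemma subset_roots (N : Finset (FG n)) : N ⊆ roots N := Finset.subset_union_left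

variable {π}

/-- The inequality for one seed `h`. -/
lemma step_ineq (φ : (FG n → Bool) → Bool) (B : Finset (FG n))
    (hφ : ∀ x y : FG n → Bool, (∀ h ∈ B, x h = y h) → φ x = φ y)
    (hinj : Set.InjOn π (roots (B.image (·⁻¹)) : Set (FG n))) (h u : G) (s : Finset G) :
    n * ∑ v, Inf (fv π φ v) h s + Inf (fv π φ u) h s ≤ ∑ v, Inf (star π φ v) h s := by
  set N : Finset (FG n) := B.image (·⁻¹) with hN
  have hsupp : ∀ v : G, (∀ w ∈ N, v ≠ π w * h) → Inf (fv π φ v) h s = 0 := by
    intro v hv
    apply Inf_eq_zero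
    intro ω b
    unfold fv
    apply hφ
    intro t ht
    unfold pull
    rw [Function.update_of_ne]
    intro h'
    apply hv t⁻¹ (Finset.mem_image_of_mem _ ht)
    rw [map_inv, ← h']
    group
  obtain ⟨w0, hw0⟩ : ∃ w0 : FG n, Inf (fv π φ u) h s = Inf (fv π φ (π w0 * h)) h s ∧ w0 ∈ N ∨
      Inf (fv π φ u) h s = 0 := by
    by_cases hh : ∃ w ∈ N, u = π w * h
    · obtain ⟨w, hw, he⟩ := hh
      exact ⟨w, Or.inl ⟨by rw [he], hw⟩⟩
    · refine ⟨1, Or.inr (hsupp u ?_)⟩
      intro w hw he
      exact hh ⟨w, hw, he⟩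
  set X : FG n → ℝ := fun w => if w * w0 ∈ N then Inf (fv π φ (π (w * w0) * h)) h s else 0
    with hX
  set Z : FG n → ℝ := fun w => Inf (star π φ (π (w * w0) * h)) h s with hZ
  set L : Finset (FG n) := N.image (· * w0⁻¹) with hL
  set R : Finset (FG n) := (roots N).image (· * w0⁻¹) with hR
  have hinj0 : Function.Injective (fun w : FG n => w * w0⁻¹) := mul_left_injective _
  have hmemL : ∀ w, w ∈ L ↔ w * w0 ∈ N := by
    intro w
    rw [hL, Finset.mem_image]
    constructor
    · rintro ⟨a, ha, rfl⟩
      simpa using ha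
    · intro h'
      exact ⟨w * w0, h', by group⟩
  have key := star_ineq L X Z R
    (by intro w; simp only [hX]; split_ifs <;> [exact Inf_nonneg _ _ _; exact le_rfl])
    (fun w => Inf_nonneg _ _ _)
    (by
      intro w hw
      simp only [hX]
      rw [if_neg]
      intro h'
      exact hw ((hmemL w).2 h'))
    (by
      intro r w hrw
      simp only [hX, hZ]
      split_ifs with h1
      · rcases hrw with e | ⟨i, e⟩
        · rw [e]
          exact Inf_comp_le (star π φ (π (r * w0) * h)) Prod.fst h s
        · have h2 := Inf_comp_le (star π φ (π (r * w0) * h)) (fun p => p.2 i) h s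
          have h3 : (fun ω : G → Bool => (star π φ (π (r * w0) * h) ω).2 i) =
              fv π φ (π (w * w0) * h) := by
            funext ω
            unfold star
            simp only
            rw [e]
            simp [mul_assoc]
          rw [h3] at h2
          exact h2
      · exact Inf_nonneg _ _ _)
    (by
      intro r w hw hrw
      rw [hR, Finset.mem_image]
      refine ⟨r * w0, ?_, by group⟩
      apply mem_roots ((hmemL w).1 hw)
      rcases hrw with e | ⟨i, e⟩
      · left; rw [e]
      · right; exact ⟨i, by rw [e, mul_assoc]⟩)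
  have hX1 : Inf (fv π φ u) h s ≤ X 1 := by
    simp only [hX, one_mul]
    rcases hw0 with ⟨h1, h2⟩ | h1
    · rw [if_pos h2, h1]
    · rw [h1]
      split_ifs
      · exact Inf_nonneg _ _ _
      · exact le_rfl
  have hXs : ∑ w ∈ L, X w = ∑ v, Inf (fv π φ v) h s := by
    have e1 : ∑ w ∈ L, X w = ∑ w ∈ N, Inf (fv π φ (π w * h)) h s := by
      rw [hL, Finset.sum_image (fun a _ b _ hab => hinj0 hab)]
      apply Finset.sum_congr rfl
      intro w hw
      simp only [hX, inv_mul_cancel_right]
      rw [if_pos hw]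
    have hinjN : Set.InjOn (fun w : FG n => π w * h) (N : Set (FG n)) := by
      intro a ha b hb hab
      exact hinj (subset_roots N ha) (subset_roots N hb) (mul_right_cancel hab)
    have e2 : ∑ w ∈ N, Inf (fv π φ (π w * h)) h s =
        ∑ v ∈ N.image (fun w => π w * h), Inf (fv π φ v) h s := by
      rw [Finset.sum_image hinjN]
    rw [e1, e2]
    apply Finset.sum_subset (Finset.subset_univ _)
    intro v _ hv
    apply hsupp
    intro w hw he
    exact hv (Finset.mem_image.2 ⟨w, hw, he.symm⟩)
  have hZs : ∑ r ∈ R, Z r ≤ ∑ v, Inf (star π φ v) h s := by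
    have e1 : ∑ r ∈ R, Z r = ∑ w ∈ roots N, Inf (star π φ (π w * h)) h s := by
      rw [hR, Finset.sum_image (fun a _ b _ hab => hinj0 hab)]
      apply Finset.sum_congr rfl
      intro w hw
      simp only [hZ, inv_mul_cancel_right]
    have hinjN : Set.InjOn (fun w : FG n => π w * h) (roots N : Set (FG n)) := by
      intro a ha b hb hab
      exact hinj ha hb (mul_right_cancel hab)
    have e2 : ∑ w ∈ roots N, Inf (star π φ (π w * h)) h s =
        ∑ v ∈ (roots N).image (fun w => π w * h), Inf (star π φ v) h s := by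
      rw [Finset.sum_image hinjN]
    rw [e1, e2]
    exact Finset.sum_le_sum_of_subset_of_nonneg (Finset.subset_univ _)
      (fun v _ _ => Inf_nonneg _ _ _)
  rw [hXs] at key
  linarith

/-- The entropy inequality in the finite model. -/
theorem finite_ineq (φ : (FG n → Bool) → Bool) (B : Finset (FG n))
    (hφ : ∀ x y : FG n → Bool, (∀ h ∈ B, x h = y h) → φ x = φ y)
    (hinj : Set.InjOn π (roots (B.image (·⁻¹)) : Set (FG n)))
    (U : Finset (FG n)) (hU : U.Nonempty) (hinjU : Set.InjOn π (U : Set (FG n))) :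
    n * Hent (fv π φ 1) + (mean (fun ω : G → Bool =>
      ind (fv π φ 1) true ω * ∏ t ∈ U, sgn (ω (π t)))) ^ 2 / (6 * U.card) ≤
      Hent (star π φ 1) := by
  set c := mean (fun ω : G → Bool => ind (fv π φ 1) true ω * ∏ t ∈ U, sgn (ω (π t))) with hc
  -- the last element of the pattern at `v`
  let Uv : G → Finset G := fun v => U.image (fun t => π t * v)
  have hUv : ∀ v, (Uv v).Nonempty := fun v => hU.image _
  let w : G → G := fun v => (Uv v).max' (hUv v)
  have hwmem : ∀ v, w v ∈ Uv v := fun v => Finset.max'_mem _ _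
  have hcv : ∀ v : G, mean (fun ω : G → Bool =>
      ind (fv π φ v) true ω * ∏ t ∈ Uv v, sgn (ω t)) = c := by
    intro v
    rw [hc, ← mean_rho v (fun ω : G → Bool => ind (fv π φ 1) true ω * ∏ t ∈ U, sgn (ω (π t)))]
    congr 1
    funext ω
    have e1 : ind (fv π φ v) true ω = ind (fv π φ 1) true (rho v ω) := by
      unfold ind
      rw [← fv_rho π φ v 1 ω, one_mul]
    have e2 : ∏ t ∈ Uv v, sgn (ω t) = ∏ t ∈ U, sgn (rho v ω (π t)) := by
      rw [Finset.prod_image]
      · rfl
      · intro a ha b hb hab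
        exact hinjU ha hb (mul_right_cancel hab)
    rw [e1, e2]
  have hgain : ∀ v : G, c ^ 2 / 6 ≤ Inf (fv π φ v) (w v) (up (w v)) := by
    intro v
    have := Inf_corr (fv π φ v) (Uv v) (w v) (up (w v)) (hwmem v) (by
      intro u hu hu'
      simp only [up, Finset.mem_filter] at hu'
      exact absurd (Finset.le_max' _ u hu) (not_le.2 hu'.2))
    rwa [hcv v] at this
  -- choice of `u`
  classical
  let u : G → G := fun h => if hh : ∃ v, w v = h then hh.choose else 1
  have hu : ∀ h ∈ Finset.univ.image w, c ^ 2 / 6 ≤ Inf (fv π φ (u h)) h (up h) := by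
    intro h hh
    rw [Finset.mem_image] at hh
    obtain ⟨v, _, hv⟩ := hh
    have hex : ∃ v, w v = h := ⟨v, hv⟩
    have h1 : u h = hex.choose := dif_pos hex
    have h2 : w (u h) = h := by rw [h1]; exact hex.choose_spec
    have h3 := hgain (u h)
    rwa [h2] at h3
  have hsum := Finset.sum_le_sum (fun (h : G) (_ : h ∈ Finset.univ) =>
    step_ineq (π := π) φ B hφ hinj h (u h) (up h))
  rw [Finset.sum_add_distrib, ← Finset.mul_sum, Finset.sum_comm] at hsum
  have e1 : ∑ v : G, ∑ h : G, Inf (fv π φ v) h (up h) = Fintype.card G * Hent (fv π φ 1) := by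
    have : ∀ v : G, ∑ h : G, Inf (fv π φ v) h (up h) = Hent (fv π φ 1) := by
      intro v
      rw [← chain, Hent_fv]
    simp_rw [this]
    simp
  have e2 : ∑ h : G, ∑ v : G, Inf (star π φ v) h (up h) =
      Fintype.card G * Hent (star π φ 1) := by
    rw [Finset.sum_comm]
    have : ∀ v : G, ∑ h : G, Inf (star π φ v) h (up h) = Hent (star π φ 1) := by
      intro v
      rw [← chain, Hent_star]
    simp_rw [this]
    simp
  rw [e1, e2] at hsum
  have e3 : (Finset.univ.image w).card * (c ^ 2 / 6) ≤ ∑ h : G, Inf (fv π φ (u h)) h (up h) := by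
    have a1 : ∑ h ∈ Finset.univ.image w, c ^ 2 / 6 ≤
        ∑ h ∈ Finset.univ.image w, Inf (fv π φ (u h)) h (up h) := Finset.sum_le_sum hu
    rw [Finset.sum_const, nsmul_eq_mul] at a1
    refine a1.trans (Finset.sum_le_sum_of_subset_of_nonneg (Finset.subset_univ _)
      (fun h _ _ => Inf_nonneg _ _ _))
  have e4 : Fintype.card G ≤ U.card * (Finset.univ.image w).card := by
    have := Finset.card_le_mul_card_image (f := w) (Finset.univ : Finset G) U.card (by
      intro h _
      have hsub : (Finset.univ.filter (fun v => w v = h)) ⊆ U.image (fun t => (π t)⁻¹ * h) := by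
        intro v hv
        rw [Finset.mem_filter] at hv
        have h1 := hwmem v
        rw [hv.2] at h1
        obtain ⟨t, ht, he⟩ := Finset.mem_image.1 h1
        rw [Finset.mem_image]
        refine ⟨t, ht, ?_⟩
        rw [← he]
        group
      exact (Finset.card_le_card hsub).trans Finset.card_image_le)
    rwa [Finset.card_univ] at this
  have hUpos : (0 : ℝ) < U.card := by exact_mod_cast hU.card_pos
  have hGpos : (0 : ℝ) < Fintype.card G := by exact_mod_cast Fintype.card_pos
  have e5 : (Fintype.card G : ℝ) * (c ^ 2 / (6 * U.card)) ≤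
      (Finset.univ.image w).card * (c ^ 2 / 6) := by
    have a1 : (Fintype.card G : ℝ) ≤ U.card * (Finset.univ.image w).card := by exact_mod_cast e4
    have a2 : (Fintype.card G : ℝ) * (c ^ 2 / (6 * U.card)) ≤
        (U.card * (Finset.univ.image w).card) * (c ^ 2 / (6 * U.card)) :=
      mul_le_mul_of_nonneg_right a1 (by positivity)
    refine a2.trans (le_of_eq ?_)
    field_simp
  have e6 : (Fintype.card G : ℝ) * (n * Hent (fv π φ 1) + c ^ 2 / (6 * U.card)) ≤
      Fintype.card G * Hent (star π φ 1) := by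
    have : (Fintype.card G : ℝ) * (n * Hent (fv π φ 1) + c ^ 2 / (6 * U.card)) =
        n * (Fintype.card G * Hent (fv π φ 1)) + Fintype.card G * (c ^ 2 / (6 * U.card)) := by
      ring
    rw [this]
    linarith
  exact le_of_mul_le_mul_left e6 hGpos

end Model

end

end Pool.Agent.V11256.KS
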