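import Pool.Agent.V11256.KS.Prob

set_option autoImplicit false
set_option linter.unusedSectionVars false
set_option linter.unusedVariables false

open Finset MeasureTheory Filter Topology
open scoped ENNReal

namespace Pool.Agent.V11256.KS

noncomputable section

variable {n : ℕ}

theorem exists_local_approx (f : Cfg n → Bool) (hf : Measurable f) (ε : ℝ) (hε : 0 < ε) :
    ∃ (B : Finset (FG n)) (φ : Cfg n → Bool), Local B φ ∧ (mu n).real {x | φ x ≠ f x} < ε := by
  classical
  obtain ⟨t, ht, hlt⟩ := exists_measure_symmDiff_lt_of_generateFrom_isSetRing (μ := mu n)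
    (C := measurableCylinders (fun _ : FG n => Bool)) isSetRing_measurableCylinders
    ⟨{Set.univ}, Set.countable_singleton _, by
      simpa using univ_mem_measurableCylinders (fun _ : FG n => Bool), by simp⟩
    generateFrom_measurableCylinders.symm (hf (measurableSet_singleton true))
    (ENNReal.ofReal_pos.2 hε)
  obtain ⟨s, S, hS, rfl⟩ := (mem_measurableCylinders t).1 ht
  refine ⟨s, fun x => decide (x ∈ cylinder s S), ?_, ?_⟩
  · intro x y hxy
    have : s.restrict x = s.restrict y := by
      funext i
      exact hxy i i.2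
    simp only [mem_cylinder]
    congr 1
    have h2 : (fun i : s => x i) = fun i : s => y i := this
    simp only [Finset.restrict_def] at *
    rw [h2]
  · have h1 : {x | decide (x ∈ cylinder s S) ≠ f x} =
        symmDiff (cylinder s S) (f ⁻¹' {true}) := by
      ext x
      have hmem : x ∈ cylinder s S ↔ s.restrict x ∈ S := Iff.rfl
      by_cases hx : s.restrict x ∈ S
      · cases hfx : f x <;> simp [Set.mem_symmDiff, hmem, hx, hfx]
      · cases hfx : f x <;> simp [Set.mem_symmDiff, hmem, hx, hfx]
    rw [h1]
    unfold Measure.real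
    exact (ENNReal.toReal_lt_toReal (measure_ne_top _ _) ENNReal.ofReal_ne_top).2 hlt |>.trans_eq
      (ENNReal.toReal_ofReal hε.le)

section law

variable {α : Type} [Fintype α] [DecidableEq α] [MeasurableSpace α] [MeasurableSingletonClass α]

lemma lawX_close1 (Ψ Ψ' : Cfg n → α) (a : α) :
    lawX Ψ a - lawX Ψ' a ≤ (mu n).real {x | Ψ x ≠ Ψ' x} := by
  unfold lawX
  have h1 : (mu n).real (Ψ ⁻¹' {a}) ≤ (mu n).real (Ψ' ⁻¹' {a} ∪ {x | Ψ x ≠ Ψ' x}) := by
    refine measureReal_mono ?_ (measure_ne_top _ _)
    intro x hx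
    by_cases h : Ψ x = Ψ' x
    · left
      simpa [h] using hx
    · right
      exact h
  have h2 := measureReal_union_le (μ := mu n) (Ψ' ⁻¹' {a}) {x | Ψ x ≠ Ψ' x}
  linarith

lemma lawX_close (Ψ Ψ' : Cfg n → α) (a : α) :
    |lawX Ψ a - lawX Ψ' a| ≤ (mu n).real {x | Ψ x ≠ Ψ' x} := by
  rw [abs_le]
  have h1 := lawX_close1 Ψ Ψ' a
  have h2 := lawX_close1 Ψ' Ψ a
  have h3 : {x | Ψ' x ≠ Ψ x} = {x | Ψ x ≠ Ψ' x} := by
    ext x; exact ne_comm
  rw [h3] at h2
  constructor <;> linarith

lemma HX_tendsto (Ψ : ℕ → Cfg n → α) (Ψ0 : Cfg n → α)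
    (h : Tendsto (fun k => (mu n).real {x | Ψ k x ≠ Ψ0 x}) atTop (𝓝 0)) :
    Tendsto (fun k => HX (Ψ k)) atTop (𝓝 (HX Ψ0)) := by
  unfold HX
  apply tendsto_finsetSum
  intro a _
  apply (Real.continuous_negMulLog.tendsto _).comp
  rw [tendsto_iff_norm_sub_tendsto_zero]
  refine squeeze_zero (fun k => norm_nonneg _) (fun k => ?_) h
  exact lawX_close (Ψ k) Ψ0 a

end law

lemma starX_close (f g : Cfg n → Bool) (hf : Measurable f) (hg : Measurable g) :
    (mu n).real {x | starX f x ≠ starX g x} ≤ (n + 1) * (mu n).real {x | f x ≠ g x} := by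
  have hm : MeasurableSet {x | f x ≠ g x} := by
    have : {x | f x ≠ g x} = {x | f x = g x}ᶜ := rfl
    rw [this]
    exact (measurableSet_eq_fun hf hg).compl
  have hsub : {x | starX f x ≠ starX g x} ⊆ {x | f x ≠ g x} ∪
      ⋃ i ∈ (Finset.univ : Finset (Fin n)), shift (FreeGroup.of i) ⁻¹' {x | f x ≠ g x} := by
    intro x hx
    by_contra hcon
    simp only [Set.mem_union, Set.mem_ofPred_eq, Set.mem_iUnion, Set.mem_preimage, not_or,
      not_exists, not_not, Finset.mem_univ] at hcon
    apply hx
    unfold starX
    refine Prod.ext hcon.1 ?_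
    funext i
    exact hcon.2 i trivial
  refine (measureReal_mono hsub).trans ?_
  refine (measureReal_union_le _ _).trans ?_
  have h2 := measureReal_biUnion_finset_le (μ := mu n) (Finset.univ : Finset (Fin n))
    (fun i => shift (FreeGroup.of i) ⁻¹' {x | f x ≠ g x})
  have h3 : ∀ i : Fin n, (mu n).real (shift (FreeGroup.of i) ⁻¹' {x | f x ≠ g x}) =
      (mu n).real {x | f x ≠ g x} := by
    intro i
    unfold Measure.real
    rw [(measurePreserving_shift (FreeGroup.of i)).measure_preimage hm.nullMeasurableSet]
  simp only [h3, Finset.sum_const, Finset.card_univ, Fintype.card_fin, nsmul_eq_mul] at h2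
  linarith

lemma measurable_char (U : Finset (FG n)) : Measurable (chi U) := (chi_local U).measurable

lemma integrable_ind_chi (f : Cfg n → Bool) (hf : Measurable f) (U : Finset (FG n)) :
    Integrable (fun x => (if f x = true then (1 : ℝ) else 0) * chi U x) (mu n) := by
  apply Integrable.of_bound (C := 1)
  · apply Measurable.aestronglyMeasurable
    apply Measurable.mul _ (measurable_char U)
    exact Measurable.ite (hf (measurableSet_singleton true)) measurable_const measurable_const
  · apply ae_of_all
    intro x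
    rw [norm_mul, Real.norm_eq_abs, Real.norm_eq_abs, abs_chi, mul_one]
    split_ifs <;> simp

lemma corr_close (f g : Cfg n → Bool) (hf : Measurable f) (hg : Measurable g)
    (U : Finset (FG n)) : |corr f U - corr g U| ≤ (mu n).real {x | f x ≠ g x} := by
  have hm : MeasurableSet {x | f x ≠ g x} := by
    have : {x | f x ≠ g x} = {x | f x = g x}ᶜ := rfl
    rw [this]
    exact (measurableSet_eq_fun hf hg).compl
  unfold corr
  rw [← integral_sub (integrable_ind_chi f hf U) (integrable_ind_chi g hg U),
    ← integral_indicator_one hm]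
  refine (abs_integral_le_integral_abs).trans ?_
  apply integral_mono_of_nonneg
  · exact ae_of_all _ (fun x => abs_nonneg _)
  · apply Integrable.of_bound (C := 1)
    · exact (measurable_const.indicator hm).aestronglyMeasurable
    · apply ae_of_all
      intro x
      by_cases h : f x = g x <;> simp [Set.indicator, h]
  · apply ae_of_all
    intro x
    simp only
    have h1 : (if f x = true then (1 : ℝ) else 0) * chi U x -
        (if g x = true then (1 : ℝ) else 0) * chi U x =
        ((if f x = true then (1 : ℝ) else 0) - (if g x = true then (1 : ℝ) else 0)) * chi U x := by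
      ring
    rw [h1, abs_mul, abs_chi, mul_one]
    by_cases h : f x = g x
    · simp [h]
    · have h2 : x ∈ {x | f x ≠ g x} := h
      rw [Set.indicator_of_mem h2]
      cases hfx : f x <;> cases hgx : g x <;> simp

/-- The entropy inequality for measurable functions. -/
theorem gen_ineq (f : Cfg n → Bool) (hf : Measurable f) (U : Finset (FG n)) (hU : U.Nonempty) :
    n * HX f + (corr f U) ^ 2 / (6 * U.card) ≤ HX (starX f) := by
  have hex : ∀ k : ℕ, ∃ (B : Finset (FG n)) (φ : Cfg n → Bool), Local B φ ∧
      (mu n).real {x | φ x ≠ f x} < 1 / ((k : ℝ) + 1) :=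
    fun k => exists_local_approx f hf _ (by positivity)
  choose B φ hloc hlt using hex
  have hD : Tendsto (fun k => (mu n).real {x | φ k x ≠ f x}) atTop (𝓝 0) :=
    squeeze_zero (fun k => measureReal_nonneg) (fun k => (hlt k).le)
      tendsto_one_div_add_atTop_nhds_zero_nat
  have hφm : ∀ k, Measurable (φ k) := fun k => (hloc k).measurable
  have h1 : Tendsto (fun k => HX (φ k)) atTop (𝓝 (HX f)) := HX_tendsto φ f hD
  have h2 : Tendsto (fun k => HX (starX (φ k))) atTop (𝓝 (HX (starX f))) := by
    apply HX_tendsto (fun k => starX (φ k)) (starX f)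
    refine squeeze_zero (fun k => measureReal_nonneg) (fun k => starX_close (φ k) f (hφm k) hf) ?_
    have := hD.const_mul ((n : ℝ) + 1)
    simpa using this
  have h3 : Tendsto (fun k => corr (φ k) U) atTop (𝓝 (corr f U)) := by
    rw [tendsto_iff_norm_sub_tendsto_zero]
    exact squeeze_zero (fun k => norm_nonneg _) (fun k => corr_close (φ k) f (hφm k) hf U) hD
  have h4 : Tendsto (fun k => n * HX (φ k) + (corr (φ k) U) ^ 2 / (6 * U.card)) atTop
      (𝓝 (n * HX f + (corr f U) ^ 2 / (6 * U.card))) :=
    (h1.const_mul _).add ((h3.pow 2).div_const _)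
  exact le_of_tendsto_of_tendsto' h4 h2 (fun k => local_ineq (φ k) (B k) (hloc k) U hU)

end

end Pool.Agent.V11256.KS
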