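import Pool.Agent.V11256.KS.Quot

set_option autoImplicit false
set_option linter.unusedSectionVars false
set_option linter.unusedVariables false

open Finset MeasureTheory
open scoped ENNReal

namespace Pool.Agent.V11256.KS

noncomputable section

/-- The fair coin. -/
def coin : Measure Bool := (2 : ℝ≥0∞)⁻¹ • Measure.dirac false + (2 : ℝ≥0∞)⁻¹ • Measure.dirac true

instance : IsProbabilityMeasure coin := ⟨by
  simp [coin, ENNReal.inv_two_add_inv_two]⟩

lemma coin_real (b : Bool) : coin.real {b} = 1 / 2 := by
  unfold Measure.real coin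
  cases b <;> simp

abbrev Cfg (n : ℕ) := FG n → Bool

/-- The Bernoulli measure. -/
def mu (n : ℕ) : Measure (Cfg n) := Measure.infinitePi (fun _ => coin)

variable {n : ℕ}

instance : IsProbabilityMeasure (mu n) := by
  unfold mu; infer_instance

/-- The Bernoulli shift `(g · x)(h) = x (h g)`. -/
def shift (g : FG n) (x : Cfg n) : Cfg n := fun h => x (h * g)

lemma measurable_shift (g : FG n) : Measurable (shift g) :=
  measurable_pi_lambda _ (fun h => measurable_pi_apply _)

lemma map_shift (g : FG n) : (mu n).map (shift g) = mu n := by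
  classical
  unfold mu
  refine Measure.eq_infinitePi (fun _ : FG n => coin) (fun s (t : FG n → Set Bool) ht => ?_)
  rw [Measure.map_apply (measurable_shift g)
    (MeasurableSet.pi s.countable_toSet (fun i _ => ht i))]
  have h1 : shift g ⁻¹' (Set.pi (s : Set (FG n)) t) =
      Set.pi ((s.image (· * g) : Finset (FG n)) : Set (FG n)) (fun k => t (k * g⁻¹)) := by
    ext x
    simp only [Set.mem_preimage, Set.mem_pi, Finset.mem_coe, Finset.mem_image, shift]
    constructor
    · rintro h _ ⟨a, ha, rfl⟩
      simpa using h a ha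
    · intro h a ha
      simpa using h (a * g) ⟨a, ha, rfl⟩
  rw [h1, Measure.infinitePi_pi _ (fun i _ => ht _),
    Finset.prod_image (fun a _ b _ hab => mul_right_cancel hab)]
  simp

lemma measurePreserving_shift (g : FG n) : MeasurePreserving (shift g) (mu n) (mu n) :=
  ⟨measurable_shift g, map_shift g⟩

lemma integral_restrict (W : Finset (FG n)) (F : (W → Bool) → ℝ) :
    ∫ x, F (W.restrict x) ∂(mu n) = mean F := by
  have hF : Measurable F := measurable_of_finite F
  unfold mu
  refine (integral_restrict_infinitePi (μ := fun _ : FG n => coin) (s := W) (f := F)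
    hF.aestronglyMeasurable).trans ?_
  rw [integral_fintype]
  · unfold mean
    rw [Finset.sum_div]
    apply Finset.sum_congr rfl
    intro y _
    have : (Measure.pi (fun _ : W => coin)).real {y} = 1 / 2 ^ Fintype.card W := by
      unfold Measure.real
      rw [← Set.univ_pi_singleton, Measure.pi_pi, ENNReal.toReal_prod]
      have h2 : ∀ i : W, (coin {y i}).toReal = 1 / 2 := fun i => coin_real (y i)
      simp_rw [h2]
      rw [Finset.prod_const, Finset.card_univ, one_div, one_div, inv_pow]
    rw [this, smul_eq_mul]
    ring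
  · exact Integrable.of_finite

/-- `g` only depends on the coordinates in `W`. -/
def Local {β : Type} (W : Finset (FG n)) (g : Cfg n → β) : Prop :=
  ∀ x y : Cfg n, (∀ h ∈ W, x h = y h) → g x = g y

/-- Extension of a partial configuration. -/
def ext (W : Finset (FG n)) (y : W → Bool) : Cfg n :=
  fun h => if hh : h ∈ W then y ⟨h, hh⟩ else false

lemma local_eq {β : Type} {W : Finset (FG n)} {g : Cfg n → β} (hg : Local W g) (x : Cfg n) :
    g x = g (ext W (W.restrict x)) := by
  apply hg
  intro h hh
  simp [ext, hh]

lemma Local.measurable {β : Type} [MeasurableSpace β] {W : Finset (FG n)} {g : Cfg n → β}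
    (hg : Local W g) : Measurable g := by
  have h1 : g = (fun y : W → Bool => g (ext W y)) ∘ W.restrict := by
    funext x; exact local_eq hg x
  rw [h1]
  exact (measurable_of_finite _).comp (Finset.measurable_restrict W)

lemma integral_local {G : Type} [Group G] [Fintype G] [DecidableEq G] (π : FG n →* G)
    {W : Finset (FG n)} (g : Cfg n → ℝ) (hg : Local W g)
    (hπ : Set.InjOn π (W : Set (FG n))) :
    ∫ x, g x ∂(mu n) = mean (fun ω : G → Bool => g (fun h => ω (π h))) := by
  have h1 : ∫ x, g x ∂(mu n) = ∫ x, (fun y : W → Bool => g (ext W y)) (W.restrict x) ∂(mu n) := by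
    congr 1
    funext x
    exact local_eq hg x
  rw [h1, integral_restrict W (fun y : W → Bool => g (ext W y)),
    ← mean_inj (V := G) (fun i : W => π i) (fun a b hab => Subtype.ext (hπ a.2 b.2 hab))]
  congr 1
  funext ω
  apply hg
  intro h hh
  simp [ext, hh]

variable {α : Type} [Fintype α] [DecidableEq α] [MeasurableSpace α] [MeasurableSingletonClass α]

/-- The law of a finite valued variable. -/
def lawX (Ψ : Cfg n → α) (a : α) : ℝ := (mu n).real (Ψ ⁻¹' {a})

/-- Its entropy. -/
def HX (Ψ : Cfg n → α) : ℝ := ∑ a, Real.negMulLog (lawX Ψ a)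

lemma lawX_eq_integral (Ψ : Cfg n → α) (hΨ : Measurable Ψ) (a : α) :
    lawX Ψ a = ∫ x, (if Ψ x = a then (1 : ℝ) else 0) ∂(mu n) := by
  unfold lawX
  rw [← integral_indicator_one (hΨ (measurableSet_singleton a))]
  congr 1
  funext x
  by_cases h : Ψ x = a <;> simp [h]

lemma lawX_local {G : Type} [Group G] [Fintype G] [DecidableEq G] (π : FG n →* G)
    {W : Finset (FG n)} (Ψ : Cfg n → α) (hΨ : Local W Ψ)
    (hπ : Set.InjOn π (W : Set (FG n))) (a : α) :
    lawX Ψ a = mean (fun ω : G → Bool => if Ψ (fun h => ω (π h)) = a then (1 : ℝ) else 0) := by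
  rw [lawX_eq_integral Ψ hΨ.measurable a,
    integral_local π (fun x => if Ψ x = a then (1 : ℝ) else 0) (W := W) _ hπ]
  intro x y hxy
  simp only
  rw [hΨ x y hxy]

/-- The values on the out-star. -/
def starX (f : Cfg n → Bool) (x : Cfg n) : Bool × (Fin n → Bool) :=
  (f x, fun i => f (shift (FreeGroup.of i) x))

/-- The character of `U`. -/
def chi (U : Finset (FG n)) (x : Cfg n) : ℝ := ∏ t ∈ U, sgn (x t)

lemma chi_local (U : Finset (FG n)) : Local U (chi U) := by
  intro x y h
  unfold chi
  exact Finset.prod_congr rfl (fun t ht => by rw [h t ht])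

lemma abs_chi (U : Finset (FG n)) (x : Cfg n) : |chi U x| = 1 := by
  unfold chi
  rw [Finset.abs_prod]
  simp [abs_sgn]

/-- The correlation of `f` with the character `U`. -/
def corr (f : Cfg n → Bool) (U : Finset (FG n)) : ℝ :=
  ∫ x, (if f x = true then (1 : ℝ) else 0) * chi U x ∂(mu n)

/-- The entropy inequality for local functions. -/
theorem local_ineq (φ : Cfg n → Bool) (B : Finset (FG n)) (hφ : Local B φ)
    (U : Finset (FG n)) (hU : U.Nonempty) :
    n * HX φ + (corr φ U) ^ 2 / (6 * U.card) ≤ HX (starX φ) := by
  classical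
  set W1 : Finset (FG n) := B ∪ Finset.univ.biUnion (fun i : Fin n => B.image (· * FreeGroup.of i))
    with hW1
  set W : Finset (FG n) := roots (B.image (·⁻¹)) ∪ (W1 ∪ (B ∪ U)) with hW
  obtain ⟨G, _, hfin, π, hπ⟩ := exists_quot W
  let _ : Fintype G := Fintype.ofFinite G
  let _ : LinearOrder G := LinearOrder.lift' (Fintype.equivFin G) (Fintype.equivFin G).injective
  have hπ1 : Set.InjOn π (roots (B.image (·⁻¹)) : Set (FG n)) :=
    hπ.mono (by rw [Finset.coe_subset]; exact Finset.subset_union_left)
  have hπW1 : Set.InjOn π (W1 : Set (FG n)) :=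
    hπ.mono (by
      rw [Finset.coe_subset]
      exact Finset.subset_union_left.trans Finset.subset_union_right)
  have hBU : (B ∪ U) ⊆ W := Finset.subset_union_right.trans Finset.subset_union_right
  have hπBU : Set.InjOn π ((B ∪ U : Finset (FG n)) : Set (FG n)) :=
    hπ.mono (Finset.coe_subset.2 hBU)
  have hπB : Set.InjOn π (B : Set (FG n)) :=
    hπBU.mono (Finset.coe_subset.2 Finset.subset_union_left)
  have hπU : Set.InjOn π (U : Set (FG n)) :=
    hπBU.mono (Finset.coe_subset.2 Finset.subset_union_right)
  have key := finite_ineq (π := π) φ B hφ hπ1 U hU hπU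
  have hpull : ∀ ω : G → Bool, pull π 1 ω = fun h => ω (π h) := by
    intro ω; funext h; simp [pull]
  have hfv1 : ∀ ω : G → Bool, fv π φ 1 ω = φ (fun h => ω (π h)) := by
    intro ω
    unfold fv
    rw [hpull]
  have e1 : HX φ = Hent (fv π φ 1) := by
    unfold HX Hent
    apply Finset.sum_congr rfl
    intro a _
    rw [lawX_local π φ hφ hπB a]
    congr 2
    funext ω
    unfold ind
    rw [hfv1]
  have hstar : Local W1 (starX φ) := by
    intro x y h
    unfold starX
    refine Prod.ext ?_ ?_
    · exact hφ x y (fun t ht => h t (Finset.mem_union_left _ ht))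
    · funext i
      apply hφ
      intro t ht
      unfold shift
      apply h
      apply Finset.mem_union_right
      rw [Finset.mem_biUnion]
      exact ⟨i, Finset.mem_univ i, Finset.mem_image_of_mem _ ht⟩
  have e2 : HX (starX φ) = Hent (star π φ 1) := by
    unfold HX Hent
    apply Finset.sum_congr rfl
    intro a _
    rw [lawX_local π (starX φ) hstar hπW1 a]
    congr 2
    funext ω
    unfold ind
    have : star π φ 1 ω = starX φ (fun h => ω (π h)) := by
      unfold star starX
      refine Prod.ext (hfv1 ω) ?_
      funext i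
      show φ (pull π (π (FreeGroup.of i) * 1) ω) =
        φ (shift (FreeGroup.of i) (fun h => ω (π h)))
      congr 1
      funext h
      simp [pull, shift]
    rw [this]
  have e3 : corr φ U = mean (fun ω : G → Bool =>
      ind (fv π φ 1) true ω * ∏ t ∈ U, sgn (ω (π t))) := by
    unfold corr
    rw [integral_local π (W := B ∪ U) _ _ hπBU]
    · congr 1
      funext ω
      unfold ind chi
      rw [hfv1]
    · intro x y h
      simp only
      rw [hφ x y (fun t ht => h t (Finset.mem_union_left _ ht)),
        chi_local U x y (fun t ht => h t (Finset.mem_union_right _ ht))]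
  rw [e1, e2, e3]
  exact key

end

end Pool.Agent.V11256.KS
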