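import Pool.Agent.V11256.KS.Fin

set_option autoImplicit false
set_option linter.unusedSectionVars false
set_option linter.unusedVariables false

open Finset

namespace Pool.Agent.V11256.KS

noncomputable section

section free

variable {X : Type}

open Classical in
/-- The finite set of suffix products of a word. -/
noncomputable def suf (L : List (X × Bool)) : Finset (FreeGroup X) :=
  (L.tails.map FreeGroup.mk).toFinset

theorem mem_suf (L L' : List (X × Bool)) (h : L' <:+ L) : FreeGroup.mk L' ∈ suf L := by
  classical
  simp only [suf, List.mem_toFinset, List.mem_map, List.mem_tails]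
  exact ⟨L', h, rfl⟩

/-- Left multiplication by a generator as a bijection between two subsets of the suffix products. -/
def pact (L : List (X × Bool)) (x : X) :
    {u : {u // u ∈ suf L} // FreeGroup.of x * u.1 ∈ suf L} ≃
      {u : {u // u ∈ suf L} // (FreeGroup.of x)⁻¹ * u.1 ∈ suf L} where
  toFun := fun u => ⟨⟨FreeGroup.of x * u.1.1, u.2⟩, by simp⟩
  invFun := fun u => ⟨⟨(FreeGroup.of x)⁻¹ * u.1.1, u.2⟩, by simp⟩
  left_inv := fun u => by ext; simp
  right_inv := fun u => by ext; simp

open Classical in
/-- The permutation by which a generator acts on the suffix products. -/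
noncomputable def act1 (L : List (X × Bool)) (x : X) : Equiv.Perm {u // u ∈ suf L} :=
  (pact L x).extendSubtype

theorem act1_apply (L : List (X × Bool)) (x : X) (u : {u // u ∈ suf L})
    (h : FreeGroup.of x * u.1 ∈ suf L) : act1 L x u = ⟨FreeGroup.of x * u.1, h⟩ := by
  classical
  exact Equiv.extendSubtype_apply_of_mem (pact L x) u h

theorem act_suffix (L : List (X × Bool)) : ∀ (L' : List (X × Bool)) (_ : L' <:+ L),
    (FreeGroup.lift (act1 L) (FreeGroup.mk L') ⟨1, mem_suf L [] (List.nil_suffix)⟩).1 =
      FreeGroup.mk L' := by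
  intro L'
  induction L' with
  | nil =>
    intro h
    rw [← FreeGroup.one_eq_mk, map_one]
    rfl
  | cons a L' ih =>
    intro h
    have h' : L' <:+ L := (List.suffix_cons a L').trans h
    obtain ⟨x, b⟩ := a
    have hmk : FreeGroup.mk ((x, b) :: L') = FreeGroup.mk [(x, b)] * FreeGroup.mk L' := by
      rw [FreeGroup.mul_mk]; rfl
    have hmem := mem_suf L _ h
    have ih2 : FreeGroup.lift (act1 L) (FreeGroup.mk L') ⟨1, mem_suf L [] (List.nil_suffix)⟩ =
      ⟨FreeGroup.mk L', mem_suf L L' h'⟩ := Subtype.ext (ih h')
    rw [hmk, map_mul, Equiv.Perm.mul_apply, ih2]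
    rw [hmk] at hmem
    cases b with
    | true =>
      have h1 : FreeGroup.mk [(x, true)] = FreeGroup.of x := rfl
      rw [h1] at hmem
      rw [h1, FreeGroup.lift_apply_of, act1_apply L x _ hmem]
    | false =>
      have h1 : FreeGroup.mk [(x, false)] = (FreeGroup.of x)⁻¹ := rfl
      rw [h1] at hmem
      rw [h1, map_inv, FreeGroup.lift_apply_of]
      have h2 : act1 L x ⟨(FreeGroup.of x)⁻¹ * FreeGroup.mk L', hmem⟩ =
          ⟨FreeGroup.mk L', mem_suf L L' h'⟩ := by
        rw [act1_apply L x _ (by simpa using mem_suf L L' h')]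
        apply Subtype.ext
        simp
      rw [← h2, ← Equiv.Perm.mul_apply, inv_mul_cancel]
      rfl

theorem free_sep (w : FreeGroup X) (hw : w ≠ 1) :
    ∃ (B : Type) (_ : Finite B) (φ : FreeGroup X →* Equiv.Perm B), φ w ≠ 1 := by
  classical
  obtain ⟨L, rfl⟩ : ∃ L, FreeGroup.mk L = w := Quot.exists_rep w
  refine ⟨{u // u ∈ suf L}, inferInstance, FreeGroup.lift (act1 L), ?_⟩
  intro h
  have h1 := act_suffix L L List.suffix_rfl
  rw [h] at h1
  exact hw h1.symm

/-- A finite quotient that is injective on a given finite set. -/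
theorem exists_quot (W : Finset (FreeGroup X)) :
    ∃ (G : Type) (_ : Group G) (_ : Finite G) (π : FreeGroup X →* G),
      Set.InjOn π (W : Set (FreeGroup X)) := by
  classical
  let I := {p : W × W // (p.1 : FreeGroup X) ≠ p.2}
  have hI : ∀ p : I, ∃ (B : Type) (_ : Finite B) (φ : FreeGroup X →* Equiv.Perm B),
      φ ((p.1.1 : FreeGroup X) * (p.1.2 : FreeGroup X)⁻¹) ≠ 1 := by
    intro p
    apply free_sep
    intro h
    exact p.2 (mul_inv_eq_one.1 h)
  choose B hB φ hφ using hI
  refine ⟨∀ p : I, Equiv.Perm (B p), inferInstance, ?_, MonoidHom.pi φ, ?_⟩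
  · have : ∀ p, Finite (B p) := hB
    infer_instance
  · intro a ha b hb hab
    by_contra hne
    let p : I := ⟨(⟨a, ha⟩, ⟨b, hb⟩), hne⟩
    apply hφ p
    have h1 : φ p a = φ p b := congrFun hab p
    rw [map_mul, map_inv, h1, mul_inv_cancel]

end free

section inj

variable {W V : Type} [Fintype W] [DecidableEq W] [Fintype V] [DecidableEq V]

/-- Restriction along an injection preserves means. -/
theorem mean_inj (e : W → V) (he : Function.Injective e) (F : (W → Bool) → ℝ) :
    mean (fun ω : V → Bool => F (fun i => ω (e i))) = mean F := by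
  classical
  -- shift by `y`
  have h1 : ∀ y : W → Bool, mean (fun ω : V → Bool => F (fun i => ω (e i))) =
      mean (fun ω : V → Bool => F (fun i => xor (ω (e i)) (y i))) := by
    intro y
    let δ : V → Bool := fun k => if h : ∃ i, e i = k then y h.choose else false
    have hδ : ∀ i, δ (e i) = y i := by
      intro i
      have hex : ∃ j, e j = e i := ⟨i, rfl⟩
      have : hex.choose = i := he hex.choose_spec
      simp only [δ, dif_pos hex, this]
    let E : (V → Bool) ≃ (V → Bool) :=
      { toFun := fun ω k => xor (ω k) (δ k)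
        invFun := fun ω k => xor (ω k) (δ k)
        left_inv := fun ω => by funext k; simp
        right_inv := fun ω => by funext k; simp }
    unfold mean
    congr 1
    rw [← Equiv.sum_comp E]
    apply Finset.sum_congr rfl
    intro ω _
    congr 1
    funext i
    simp [E, hδ]
  have h2 : mean (fun ω : V → Bool => F (fun i => ω (e i))) =
      mean (fun ω : V → Bool => mean (fun y : W → Bool => F (fun i => xor (ω (e i)) (y i)))) := by
    have h3 : mean (fun ω : V → Bool =>
        mean (fun y : W → Bool => F (fun i => xor (ω (e i)) (y i)))) =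
        mean (fun y : W → Bool => mean (fun ω : V → Bool => F (fun i => xor (ω (e i)) (y i)))) := by
      unfold mean
      rw [← Finset.sum_div, ← Finset.sum_div, Finset.sum_comm]
      ring
    rw [h3]
    simp_rw [← h1]
    rw [mean_const]
  have h4 : ∀ ω : V → Bool, mean (fun y : W → Bool => F (fun i => xor (ω (e i)) (y i))) =
      mean F := by
    intro ω
    let E : (W → Bool) ≃ (W → Bool) :=
      { toFun := fun y k => xor (ω (e k)) (y k)
        invFun := fun y k => xor (ω (e k)) (y k)
        left_inv := fun y => by funext k; simp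
        right_inv := fun y => by funext k; simp }
    unfold mean
    congr 1
    exact Equiv.sum_comp E F
  rw [h2]
  simp_rw [h4]
  exact mean_const _

end inj

end

end Pool.Agent.V11256.KS
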